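import Pool.Agent.Y967.CB.ExfB

/-!
# Closed 3-braids: the exact formula at the root of unity (task EXF of project CB3)
-/

set_option autoImplicit false

namespace Pool.Agent.Y967.CB

open Finset Filter Topology Pool.Agent.Y472 Pool.Agent.H550R3.Jones Pool.Agent.W711.HT
open scoped Real

theorem cb_ne {z : ℂ} (h0 : z ≠ 0) (h1 : ‖z‖ ≠ 1) : cb z ≠ 0 := by
  intro h
  rw [cb, sub_eq_zero] at h
  have h2 : z * z = 1 := by
    nth_rewrite 1 [h]
    exact inv_mul_cancel₀ h0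
  have h3 : ‖z‖ * ‖z‖ = 1 := by rw [← norm_mul, h2, norm_one]
  have h4 : 0 ≤ ‖z‖ := norm_nonneg z
  exact h1 (by nlinarith)

theorem norm_vN (N : ℕ) : ‖vN N‖ = 1 := by
  rw [vN, show (π * Complex.I / N : ℂ) = ((π / N : ℝ) : ℂ) * Complex.I by push_cast; ring]
  exact Complex.norm_exp_ofReal_mul_I _

theorem kap_diff (N : ℕ) (m : ℤ) : DifferentiableAt ℂ (kap N m) 0 := by
  have e : kap N m = fun ε : ℂ => (vN N ^ 4) ^ m *
      Complex.exp (m * (-6 * N * ε + 9 * Complex.I * N * ε ^ 2 / (2 * π))) := by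
    funext ε
    rw [kap, mul_zpow, ← Complex.exp_int_mul]
  rw [e]
  fun_prop

theorem kap_norm (N : ℕ) (m : ℤ) : ‖kap N m 0‖ = 1 := by
  rw [kap]
  simp [norm_vN]

/-- the factor in front of the generic sum -/
noncomputable def gf (N : ℕ) (ε : ℂ) : ℂ :=
  cb (-Complex.exp ε) * ((((-Complex.exp ε) ^ N) ^ 2 + 1 + (((-Complex.exp ε) ^ N) ^ 2)⁻¹) *
    (((-Complex.exp ε) ^ N) ^ 2)⁻¹)

theorem gf_zero (N : ℕ) : gf N 0 = 0 := by
  rw [gf, Complex.exp_zero, cb]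
  norm_num

theorem gf_deriv (N : ℕ) : HasDerivAt (gf N) (-6) 0 := by
  have h1 : HasDerivAt (fun ε : ℂ => cb (-Complex.exp ε)) (-2) 0 := by
    have e : (fun ε : ℂ => cb (-Complex.exp ε)) =
        fun ε : ℂ => -Complex.exp ε + Complex.exp (-ε) := by
      funext ε
      rw [cb, Complex.exp_neg, inv_neg]
      ring
    rw [e]
    have h2 : HasDerivAt (fun ε : ℂ => Complex.exp (-ε)) (Complex.exp (-0) * -1) 0 :=
      (hasDerivAt_neg (0 : ℂ)).cexp
    have h3 := ((Complex.hasDerivAt_exp 0).fun_neg).add h2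
    have e2 : -Complex.exp 0 + Complex.exp (-0) * -1 = (-2 : ℂ) := by
      rw [neg_zero, Complex.exp_zero]
      norm_num
    rw [e2] at h3
    exact h3
  have h4 : DifferentiableAt ℂ (fun ε : ℂ => (((-Complex.exp ε) ^ N) ^ 2 + 1 +
      (((-Complex.exp ε) ^ N) ^ 2)⁻¹) * (((-Complex.exp ε) ^ N) ^ 2)⁻¹) 0 := by
    have h5 : DifferentiableAt ℂ (fun ε : ℂ => ((-Complex.exp ε) ^ N) ^ 2) 0 := by fun_prop
    have h6 : DifferentiableAt ℂ (fun ε : ℂ => (((-Complex.exp ε) ^ N) ^ 2)⁻¹) 0 :=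
      h5.fun_inv (pow_ne_zero _ (pow_ne_zero _ (neg_ne_zero.mpr (Complex.exp_ne_zero _))))
    exact ((h5.add_const 1).add h6).mul h6
  have h7 := h1.mul h4.hasDerivAt
  have e3 : (((-Complex.exp 0) ^ N) ^ 2 : ℂ) = 1 := by
    rw [Complex.exp_zero, ← pow_mul, mul_comm, pow_mul]
    norm_num
  have e4 : cb (-Complex.exp 0) = 0 := by
    rw [Complex.exp_zero, cb]
    norm_num
  rw [e4, e3, zero_mul, add_zero] at h7
  have e5 : (-2 : ℂ) * ((1 + 1 + 1⁻¹) * 1⁻¹) = -6 := by norm_num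
  rw [e5] at h7
  exact h7

theorem tendsto_real : Tendsto (fun ε : ℝ => (ε : ℂ)) (𝓝[≠] 0) (𝓝[≠] 0) := by
  refine tendsto_nhdsWithin_iff.mpr ⟨?_, ?_⟩
  · have h : Tendsto (fun ε : ℝ => (ε : ℂ)) (𝓝 0) (𝓝 ((0 : ℝ) : ℂ)) :=
      Complex.continuous_ofReal.tendsto 0
    rw [Complex.ofReal_zero] at h
    exact h.mono_left nhdsWithin_le_nhds
  · filter_upwards [self_mem_nhdsWithin] with ε hε
    simpa using hε

theorem exf : S_EXF := by
  intro hGDA hTRG hJLC hRTV hJLX hBASF hPT hACT hFT hHATM hGD3 hDEC hDDS hBAS hHV hSIG1 hSIG2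
    hSIGT hTH hNIL hQV hVWP hTAS hX12 hSPL hBID N ls m hN _
  obtain ⟨c, hc, hGex⟩ := hGDA N hN
  have hG' : ∀ (a : ℤ) (i j : ℕ), ∃ G : ℂ → ℂ, i ≤ j → j < N → (DifferentiableAt ℂ G 0 ∧
      G 0 = c a * cJ N a i j ∧
      ∀ᶠ ε in 𝓝[≠] (0 : ℂ), G ε = gd (vN N) (-Complex.exp ε) a i j) := by
    intro a i j
    by_cases h : i ≤ j ∧ j < N
    · obtain ⟨G, h1, h2, h3⟩ := hGex a i j h.1 h.2
      exact ⟨G, fun _ _ => ⟨h1, h2, h3⟩⟩
    · exact ⟨0, fun h1 h2 => absurd ⟨h1, h2⟩ h⟩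
  choose G hGs using hG'
  have hGd : ∀ a i j, i ≤ j → j < N → DifferentiableAt ℂ (G a i j) 0 :=
    fun a i j h1 h2 => (hGs a i j h1 h2).1
  have hG0 : ∀ a i j, i ≤ j → j < N → G a i j 0 = c a * cJ N a i j :=
    fun a i j h1 h2 => (hGs a i j h1 h2).2.1
  have hRt := hRTV N hN
  obtain ⟨hcj, hcont⟩ := hJLC N (ftw m ++ bw ls) hN
  -- the values of the polynomial
  have hJ : Tendsto (fun ε : ℂ => JL N (vN N) (-Complex.exp ε) (ftw m ++ bw ls)) (𝓝 0)
      (𝓝 (cjones N 2 (ftw m ++ bw ls) (vN N))) := by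
    rw [← hcj]
    have h1 : Tendsto (fun ε : ℂ => -Complex.exp ε) (𝓝 0) (𝓝 (-1)) := by
      have h2 : Tendsto (fun ε : ℂ => -Complex.exp ε) (𝓝 0) (𝓝 (-Complex.exp 0)) :=
        (Complex.continuous_exp.tendsto 0).neg
      rwa [Complex.exp_zero] at h2
    exact hcont.tendsto.comp h1
  -- the sum is equal to its continuation
  have hev : ∀ᶠ ε in 𝓝[≠] (0 : ℂ), ∀ x ∈ ls, ∀ i j : ℕ, i ≤ j → j < N →
      G x.1 i j ε = gd (vN N) (-Complex.exp ε) x.1 i j ∧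
      G x.2 i j ε = gd (vN N) (-Complex.exp ε) x.2 i j := by
    have h1 : ∀ᶠ ε in 𝓝[≠] (0 : ℂ), ∀ x ∈ ls.toFinset, ∀ j ∈ range N, ∀ i ∈ range (j + 1),
        G x.1 i j ε = gd (vN N) (-Complex.exp ε) x.1 i j ∧
        G x.2 i j ε = gd (vN N) (-Complex.exp ε) x.2 i j := by
      rw [Filter.eventually_all_finset]
      intro x _
      rw [Filter.eventually_all_finset]
      intro j hj
      rw [Filter.eventually_all_finset]
      intro i hi
      have hj' := Finset.mem_range.mp hj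
      have hi' : i ≤ j := by
        have := Finset.mem_range.mp hi
        omega
      exact ((hGs x.1 i j hi' hj').2.2).and ((hGs x.2 i j hi' hj').2.2)
    filter_upwards [h1] with ε hε x hx i j hij hj
    exact hε x (List.mem_toFinset.mpr hx) j (Finset.mem_range.mpr hj) i
      (Finset.mem_range.mpr (by omega))
  have hK : ∀ᶠ ε : ℝ in 𝓝[≠] 0, JL N (vN N) (-Complex.exp (ε : ℂ)) (ftw m ++ bw ls) *
      gf N (ε : ℂ) = -(2 * Complex.I) * (kap N m (ε : ℂ) * SS N G ls m (ε : ℂ)) := by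
    filter_upwards [tendsto_real.eventually hev, self_mem_nhdsWithin] with ε hε h0
    have hε0 : ε ≠ 0 := h0
    have hn : ‖-Complex.exp (ε : ℂ)‖ = Real.exp ε := by
      rw [norm_neg, Complex.norm_exp, Complex.ofReal_re]
    have hn1 : ‖-Complex.exp (ε : ℂ)‖ ≠ 1 := by
      rw [hn]
      intro h
      exact hε0 ((Real.exp_eq_one_iff ε).mp h)
    have hl0 : -Complex.exp (ε : ℂ) ≠ 0 := neg_ne_zero.mpr (Complex.exp_ne_zero _)
    have hGl : Gl (-Complex.exp (ε : ℂ)) := ⟨hl0, hn1⟩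
    have hT := hTRG hJLX hBASF hPT hACT hFT hHATM hGD3 hDEC hDDS hBAS hHV hSIG1 hSIG2 hSIGT hTH
      hNIL hQV hVWP hTAS hX12 hSPL hBID N (vN N) (-Complex.exp (ε : ℂ)) hRt hGl ls m
    rw [sum_eq N hN G ls m (ε : ℂ) hε] at hT
    rw [hT, gf, SS]
    have hpow : ∀ k : ℕ, k ≠ 0 → cb ((-Complex.exp (ε : ℂ)) ^ k) ≠ 0 := by
      intro k hk
      refine cb_ne (pow_ne_zero _ hl0) ?_
      rw [norm_pow]
      intro h
      exact hn1 ((pow_eq_one_iff_of_nonneg (norm_nonneg _) hk).mp h)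
    have hcl : cb (-Complex.exp (ε : ℂ)) ≠ 0 := cb_ne hl0 hn1
    have hcy : cb ((-Complex.exp (ε : ℂ)) ^ N) ≠ 0 := hpow N (by omega)
    have hc3 : cb ((-Complex.exp (ε : ℂ)) ^ (3 * N)) ≠ 0 := hpow (3 * N) (by omega)
    have hy0 : (-Complex.exp (ε : ℂ)) ^ N ≠ 0 := pow_ne_zero _ hl0
    have e2 : (-Complex.exp (ε : ℂ)) ^ (2 * N) = ((-Complex.exp (ε : ℂ)) ^ N) ^ 2 := by
      rw [← pow_mul]; congr 1; ring
    have e3 : cb ((-Complex.exp (ε : ℂ)) ^ (3 * N)) = cb ((-Complex.exp (ε : ℂ)) ^ N) *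
        (((-Complex.exp (ε : ℂ)) ^ N) ^ 2 + 1 + (((-Complex.exp (ε : ℂ)) ^ N) ^ 2)⁻¹) := by
      have : (-Complex.exp (ε : ℂ)) ^ (3 * N) = ((-Complex.exp (ε : ℂ)) ^ N) ^ 3 := by
        rw [← pow_mul]; congr 1; ring
      rw [this, cb, cb]
      field_simp
      ring
    rw [e3] at hc3
    have hq := right_ne_zero_of_mul hc3
    rw [e2, e3]
    generalize (-Complex.exp (ε : ℂ)) ^ N = y at *
    generalize cb (-Complex.exp (ε : ℂ)) = cl at *
    generalize (∑ p ∈ range N, (wE N m (chi N p ε) * Te N G ls ε (chi N p ε) +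
        wE N m (chi N p ε) * He N G ls p ε (chi N p ε) *
          (Complex.exp (-6 * m * N * ε) - 1))) = tot at *
    generalize y ^ 2 + 1 + (y ^ 2)⁻¹ = q at *
    generalize cb y = cy at *
    field_simp
  -- the derivative
  have hS := SS_deriv hN hGd c hG0 ls m
  have hS0 : SS N G ls m 0 = 0 := SS_zero hN ls m
  have hKd : HasDerivAt (fun ε : ℂ => -(2 * Complex.I) * (kap N m ε * SS N G ls m ε))
      (-(2 * Complex.I) * (deriv (kap N m) 0 * SS N G ls m 0 + kap N m 0 *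
        (CC c ls * (-3 * Complex.I) *
      (∑ p ∈ range N, deriv (fun χ => wE N m χ * Tf N ls χ) (2 * π * p / N) -
      2 * Complex.I * m * N * ∑ p ∈ range N, wE N m (2 * π * p / N) * Thi N ls p)))) 0 :=
    ((kap_diff N m).hasDerivAt.mul hS).const_mul _
  have hsl := (hasDerivAt_iff_tendsto_slope.mp hKd).comp tendsto_real
  have hgl := (hasDerivAt_iff_tendsto_slope.mp (gf_deriv N)).comp tendsto_real
  have hJ' : Tendsto (fun ε : ℝ => JL N (vN N) (-Complex.exp (ε : ℂ)) (ftw m ++ bw ls))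
      (𝓝[≠] 0) (𝓝 (cjones N 2 (ftw m ++ bw ls) (vN N))) :=
    (hJ.mono_left nhdsWithin_le_nhds).comp tendsto_real
  have hprod := hJ'.mul hgl
  have heq : (slope (fun ε : ℂ => -(2 * Complex.I) * (kap N m ε * SS N G ls m ε)) 0 ∘
      fun ε : ℝ => (ε : ℂ)) =ᶠ[𝓝[≠] 0] fun ε : ℝ =>
      JL N (vN N) (-Complex.exp (ε : ℂ)) (ftw m ++ bw ls) *
        (slope (gf N) 0 ∘ fun ε : ℝ => (ε : ℂ)) ε := by
    filter_upwards [hK] with ε hε
    simp only [Function.comp, slope, vsub_eq_sub, smul_eq_mul, sub_zero, gf_zero, hS0, mul_zero]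
    rw [← hε]
    ring
  have hlim := tendsto_nhds_unique (hsl.congr' heq) hprod
  rw [hS0, mul_zero, zero_add] at hlim
  have hnorm := congrArg norm hlim
  rw [norm_mul, norm_mul, norm_mul, norm_mul, kap_norm, CC, norm_list _ (fun x => by
    rw [norm_mul, hc, hc, one_mul]) ls, norm_mul, norm_mul, Complex.norm_I] at hnorm
  have n1 : ‖-(2 * Complex.I)‖ = 2 := by
    rw [norm_neg, norm_mul, Complex.norm_I]; norm_num
  have n2 : ‖(-3 : ℂ)‖ = 3 := by norm_num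
  have n3 : ‖(-6 : ℂ)‖ = 6 := by norm_num
  rw [n1, n2, n3] at hnorm
  linarith [hnorm]

end Pool.Agent.Y967.CB
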