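import Pool.Agent.Y967.CB.TgInt

/-!
# Analytic interpolation of `log Tg` in `d`: the interpolation
-/

set_option autoImplicit false

namespace Pool.Agent.Y967.CB.TI

open Filter Finset Topology Metric MeasureTheory
open Pool.Agent.W366.HT
open Pool.Agent.Y472 (Tg)
open scoped Real

lemma refl_mem {z : ℂ} (hz : z ∈ ball (1 / 4 : ℂ) (1 / 100)) {x : ℝ} (h0 : 0 ≤ x)
    (h1 : x ≤ 1 / 100) : 1 / 2 - (z + x) ∈ ball (1 / 8 : ℂ) (3 / 20) := by
  rw [mem_ball, dist_eq_norm] at hz ⊢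
  have e : 1 / 2 - (z + x) - 1 / 8 = -(z - 1 / 4) + ((1 / 8 - x : ℝ) : ℂ) := by push_cast; ring
  rw [e]
  refine (norm_add_le _ _).trans_lt ?_
  rw [norm_neg, norm_cast_inv (by linarith)]
  linarith

open Classical in
/-- the family -/
noncomputable def hA (N : ℕ) (χ z : ℂ) : ℂ :=
  if z ∈ ball (1 / 4 : ℂ) (1 / 100) then fA χ (1 / 2 - (z + (1 / N : ℝ))) else 0

lemma hA_of_mem {N : ℕ} {χ z : ℂ} (hz : z ∈ ball (1 / 4 : ℂ) (1 / 100)) :
    hA N χ z = fA χ (1 / 2 - (z + (1 / N : ℝ))) := if_pos hz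

lemma hA_diffχ {N : ℕ} (hN : 100 ≤ N) (z : ℂ) :
    DifferentiableOn ℂ (fun χ => hA N χ z) (ball (0 : ℂ) (1 / 100)) := by
  by_cases hz : z ∈ ball (1 / 4 : ℂ) (1 / 100)
  · have e : (fun χ => hA N χ z) = fun χ => fA χ (1 / 2 - (z + (1 / N : ℝ))) := by
      funext χ
      exact hA_of_mem hz
    rw [e]
    exact fA_diffψ (refl_mem hz (inv_le hN).2.2.1 (inv_le hN).2.2.2)
  · have e : (fun χ => hA N χ z) = fun _ => 0 := by
      funext χ
      exact if_neg hz
    rw [e]
    exact differentiableOn_const _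

/-- coefficients -/
noncomputable def ch (N m j : ℕ) (χ : ℂ) : ℂ :=
  ∑ i ∈ range (j + 1), (-1 : ℂ) ^ (j - i) * (j.choose i : ℂ) * hA N χ (((m + i : ℕ) : ℂ) / N)

lemma ch_diff {N : ℕ} (hN : 100 ≤ N) (m j : ℕ) :
    DifferentiableOn ℂ (ch N m j) (ball (0 : ℂ) (1 / 100)) := by
  unfold ch
  refine DifferentiableOn.fun_sum fun i _ => ?_
  exact (hA_diffχ hN _).const_mul _

lemma G_diff {N m : ℕ} (hN : 0 < N) (hm : 23 / 100 ≤ (m : ℝ) / N) :
    DifferentiableOn ℂ (G N m) (ball (0 : ℂ) (1 / 100)) := by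
  have hN' : (0 : ℝ) < N := by exact_mod_cast hN
  unfold G
  refine DifferentiableOn.add ?_ (DifferentiableOn.fun_sum fun t ht => ?_)
  · by_cases h : N % 2 = 0
    · simp only [if_pos h]
      refine DifferentiableOn.clog (by fun_prop) (fun χ hχ => cosh_slit hχ)
    · simp only [if_neg h]
      exact differentiableOn_const _
  · rw [mem_Ioc] at ht
    have h1 : (m : ℝ) / N ≤ (t : ℝ) / N :=
      div_le_div_of_nonneg_right (by exact_mod_cast ht.1.le) hN'.le
    have h2 : (t : ℝ) / N ≤ 1 / 2 := by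
      have h3 : (t : ℝ) / N ≤ (((N - 1) / 2 : ℕ) : ℝ) / N :=
        div_le_div_of_nonneg_right (by exact_mod_cast ht.2) hN'.le
      have h4 := (half_le N hN).1
      have h5 : 0 ≤ 1 / (2 * N : ℝ) := by positivity
      linarith
    exact fA_diffψ (real_mem_D1 (by linarith) (by linarith))

theorem tg_int : W711.HT.S_NEWT → ∃ ρ : ℝ, 0 < ρ ∧ ρ < 1 / 8 ∧ ∃ τg : ℕ → ℂ × ℂ → ℂ,
    (∀ᶠ N : ℕ in atTop, DifferentiableOn ℂ (τg N) (ball (1 / 4) ρ ×ˢ ball 0 ρ)) ∧
    (∀ᶠ N : ℕ in atTop, ∀ d : ℕ, |(d : ℝ) / N - 1 / 4| < ρ →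
      ∀ χ ∈ ball (0 : ℂ) ρ, Tg N d χ = Complex.exp (N * τg N ((d : ℂ) / N, χ))) ∧
    TendstoUniformlyOn τg (fun p => W711.HT.rrF (1 / 2 - p.1) p.2) atTop
      (ball (1 / 4) ρ ×ˢ ball 0 ρ) := by
  intro hNewt
  obtain ⟨ρ, hρ0, hρR, hNw⟩ := hNewt (1 / 100) (by norm_num)
  obtain ⟨m, hm⟩ : ∃ m : ℕ → ℕ, m = fun N : ℕ => ⌊(1 / 4 - ρ) * (N : ℝ)⌋₊ := ⟨_, rfl⟩
  have hmt : Tendsto (fun N : ℕ => (m N : ℝ) / N) atTop (𝓝 (1 / 4 - ρ)) := by
    rw [hm]
    exact (tendsto_nat_floor_mul_div_atTop (R := ℝ) (a := 1 / 4 - ρ) (by linarith)).comp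
      tendsto_natCast_atTop_atTop
  have hm1 : ∀ᶠ N : ℕ in atTop, |(m N : ℝ) / N - (1 / 4 - ρ)| ≤ ρ / 4 := by
    have := Metric.tendsto_nhds.1 hmt (ρ / 4) (by linarith)
    filter_upwards [this] with N hN
    rw [Real.dist_eq] at hN
    exact hN.le
  have hm2 : ∀ᶠ N : ℕ in atTop, 1 / 4 - 1 / 100 < (m N : ℝ) / N :=
    hmt.eventually_const_lt (by linarith)
  have e4 : (((1 / 4 : ℝ)) : ℂ) = 1 / 4 := by norm_num
  obtain ⟨cA, DA, hcA, hsA, hlA⟩ := hNw (1 / 4) {χ : ℂ // χ ∈ ball (0 : ℂ) (1 / 100)}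
    (fun N k z => hA N k.1 z) (fun k z => fA k.1 (1 / 2 - z)) 12
    (by
      filter_upwards [eventually_ge_atTop 100] with N hN k
      rw [e4]
      have h1 : DifferentiableOn ℂ (fun z => fA k.1 (1 / 2 - (z + (1 / N : ℝ))))
          (ball (1 / 4 : ℂ) (1 / 100)) := by
        refine (fA_diff k.2).comp (by fun_prop) ?_
        intro z hz
        exact refl_mem hz (inv_le hN).2.2.1 (inv_le hN).2.2.2
      exact h1.congr fun z hz => hA_of_mem hz)
    (by
      intro k
      rw [e4]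
      refine (fA_diff k.2).comp (by fun_prop) ?_
      intro z hz
      have := refl_mem hz (le_refl (0:ℝ)) (by norm_num)
      simpa using this)
    (by
      filter_upwards [eventually_ge_atTop 100] with N hN k z hz
      rw [e4] at hz
      rw [hA_of_mem hz]
      exact fA_norm k.2 (refl_mem hz (inv_le hN).2.2.1 (inv_le hN).2.2.2))
    (by
      intro ε hε
      have hlim : Tendsto (fun N : ℕ => 32 * (1 / (N : ℝ))) atTop (𝓝 0) := by
        have := (tendsto_one_div_atTop_nhds_zero_nat (𝕜 := ℝ)).const_mul 32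
        simpa using this
      filter_upwards [eventually_ge_atTop 100, hlim.eventually_lt_const hε] with N hN hN2 k z hz
      rw [e4] at hz
      rw [hA_of_mem hz]
      have hz0 : 1 / 2 - z ∈ ball (1 / 8 : ℂ) (3 / 20) := by
        have := refl_mem hz (le_refl (0:ℝ)) (by norm_num)
        simpa using this
      refine (fA_lip k.2 hz0 (refl_mem hz (inv_le hN).2.2.1 (inv_le hN).2.2.2)).trans ?_
      have e : 1 / 2 - (z + ((1 / N : ℝ) : ℂ)) - (1 / 2 - z) = -((1 / N : ℝ) : ℂ) := by ring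
      rw [e, norm_neg, norm_cast_inv (inv_le hN).2.2.1]
      exact hN2.le)
    m hm1
  have hψs : ball (0 : ℂ) (ρ / 2) ⊆ ball (0 : ℂ) (1 / 100) := ball_subset_ball (by linarith)
  refine ⟨ρ / 2, by linarith, by linarith,
    fun N p => G N (m N) p.2 / N -
      (∑ j ∈ range (DA N), ch N (m N) j p.2 * nw N (m N) j p.1) / N, ?_, ?_, ?_⟩
  · -- differentiability
    filter_upwards [eventually_ge_atTop 100, hm2] with N hN hmN
    have hN0 : 0 < N := by omega
    have hs2 : Set.MapsTo Prod.snd (ball (1 / 4 : ℂ) (ρ / 2) ×ˢ ball (0 : ℂ) (ρ / 2))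
        (ball (0 : ℂ) (1 / 100)) := fun p hp => hψs hp.2
    refine DifferentiableOn.sub (diffOn_div ?_ _) (diffOn_div (DifferentiableOn.fun_sum
      fun j _ => ?_) _)
    · exact (G_diff hN0 (by linarith)).comp differentiable_snd.differentiableOn hs2
    · exact ((ch_diff hN _ _).comp differentiable_snd.differentiableOn hs2).mul
        ((nw_diff _ _ _).comp differentiable_fst).differentiableOn
  · -- interpolation
    filter_upwards [eventually_ge_atTop 100, hm1, hm2, hsA] with N hN hmN hmN2 hsA d hd χ hχ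
    have hN0 : 0 < N := by omega
    have hN' : (0 : ℝ) < N := by exact_mod_cast hN0
    have hNc : (N : ℂ) ≠ 0 := by exact_mod_cast hN0.ne'
    have hχ' := hψs hχ
    have hmd : m N ≤ d := by
      have h1 : (m N : ℝ) / N ≤ (d : ℝ) / N := by
        have h2 := (abs_le.1 hmN).2
        have h3 := (abs_lt.1 hd).1
        linarith
      rw [div_le_div_iff_of_pos_right hN'] at h1
      exact_mod_cast h1
    have hdN : (d : ℝ) / N < 26 / 100 := by
      have h3 := (abs_lt.1 hd).2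
      linarith
    have hdm : 23 / 100 ≤ (d : ℝ) / N := by
      have h3 := (abs_lt.1 hd).1
      linarith
    have hdn : d ≤ (N - 1) / 2 := by
      have h1 := (half_le N hN0).2
      have h2 := (inv_le hN).2.2.2
      have h3 : (d : ℝ) / N ≤ (((N - 1) / 2 : ℕ) : ℝ) / N := by linarith
      rw [div_le_div_iff_of_pos_right hN'] at h3
      exact_mod_cast h3
    have hjA : ∀ j ∈ Ico (m N) d, ((j : ℂ) / N) ∈ ball (1 / 4 : ℂ) (1 / 100) := by
      intro j hj
      rw [mem_Ico] at hj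
      have e : ((j : ℂ) / N) = (((j : ℝ) / N : ℝ) : ℂ) := by push_cast; rfl
      rw [e]
      apply real_mem_A
      have h1 : (m N : ℝ) / N ≤ (j : ℝ) / N :=
        div_le_div_of_nonneg_right (by exact_mod_cast hj.1) hN'.le
      have h2 : (j : ℝ) / N ≤ (d : ℝ) / N :=
        div_le_div_of_nonneg_right (by exact_mod_cast hj.2.le) hN'.le
      have h3 := (abs_lt.1 hd).2
      rw [abs_lt]
      constructor <;> linarith
    have hnw : ∀ j, nw N (m N) j ((d : ℂ) / N) =
        (∏ i ∈ range (j + 1), ((d : ℂ) - m N - i)) / ((j + 1).factorial : ℂ) := by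
      intro j
      unfold nw
      rw [mul_div_cancel₀ _ hNc]
    have h1 := hsA ⟨χ, hχ'⟩ d hd.le
    have e1 : ∑ j ∈ range (DA N), ch N (m N) j χ * nw N (m N) j ((d : ℂ) / N) =
        ∑ j ∈ Ico (m N) d, hA N χ ((j : ℂ) / N) := by
      rw [h1]
      refine sum_congr rfl fun j _ => ?_
      rw [hnw, hcA]
      rfl
    have e2 : ∑ j ∈ Ico (m N) d, hA N χ ((j : ℂ) / N) =
        ∑ t ∈ Ioc (m N) d, fA χ ((1 / 2 - (t : ℝ) / N : ℝ) : ℂ) := by
      refine Finset.sum_nbij' (fun j => j + 1) (fun t => t - 1) ?_ ?_ ?_ ?_ ?_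
      · intro j hj
        rw [mem_Ico] at hj
        rw [mem_Ioc]
        omega
      · intro t ht
        rw [mem_Ioc] at ht
        rw [mem_Ico]
        omega
      · intro j hj
        omega
      · intro t ht
        rw [mem_Ioc] at ht
        omega
      · intro j hj
        rw [hA_of_mem (hjA j hj)]
        congr 1
        push_cast
        ring
    have e3 : G N (m N) χ = G N d χ + ∑ t ∈ Ioc (m N) d, fA χ ((1 / 2 - (t : ℝ) / N : ℝ) : ℂ) := by
      unfold G
      rw [← Finset.sum_Ioc_consecutive _ hmd hdn]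
      ring
    have e5 : (N : ℂ) * (G N (m N) χ / N -
        (∑ j ∈ range (DA N), ch N (m N) j χ * nw N (m N) j ((d : ℂ) / N)) / N) = G N d χ := by
      rw [e1, e2, e3]
      field_simp
      ring
    show Tg N d χ = Complex.exp ((N : ℂ) * (G N (m N) χ / N -
        (∑ j ∈ range (DA N), ch N (m N) j χ * nw N (m N) j ((d : ℂ) / N)) / N))
    rw [e5]
    exact Tg_eq hN0 hχ' hdm
  · -- the limit
    rw [Metric.tendstoUniformlyOn_iff]
    intro ε hε
    have hlim : Tendsto (fun N : ℕ => 34 * (1 / (N : ℝ))) atTop (𝓝 0) := by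
      have := (tendsto_one_div_atTop_nhds_zero_nat (𝕜 := ℝ)).const_mul 34
      simpa using this
    filter_upwards [eventually_ge_atTop 100, hm1, hm2, hlA (ε / 3) (by linarith),
      hlim.eventually_lt_const (by linarith : 0 < ε / 3)] with N hN hmN hmN2 hlA hN8 p hp
    have hN0 : 0 < N := by omega
    have hN' : (0 : ℝ) < N := by exact_mod_cast hN0
    have hψ := hψs hp.2
    have hδ : p.1 ∈ ball (1 / 4 : ℂ) (1 / 100) := ball_subset_ball (by linarith) hp.1
    have hmN3 : (m N : ℝ) / N ≤ 1 / 4 := by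
      have := (abs_le.1 hmN).2
      linarith
    have hw : (1 / 2 - (m N : ℂ) / N) ∈ ball (1 / 8 : ℂ) (3 / 20) := by
      have e : (1 / 2 - (m N : ℂ) / N) = ((1 / 2 - (m N : ℝ) / N : ℝ) : ℂ) := by push_cast; rfl
      rw [e]
      exact real_mem_D1 (by linarith) (by linarith)
    have hδ' : 1 / 2 - p.1 ∈ ball (1 / 8 : ℂ) (3 / 20) := by
      have := refl_mem hδ (le_refl (0:ℝ)) (by norm_num)
      simpa using this
    have h1 := G_lim hN hψ (by linarith) hmN3
    have h2 := hlA ⟨p.2, hψ⟩ p.1 (by rw [e4]; exact hp.1)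
    have h3 := rrF_split' hψ hδ' hw
    rw [dist_comm, dist_eq_norm]
    rw [h3]
    have e5 : ∑ j ∈ range (DA N), ch N (m N) j p.2 * nw N (m N) j p.1 =
        ∑ j ∈ range (DA N), cA N j ⟨p.2, hψ⟩ * ((∏ i ∈ range (j + 1), (N * p.1 - m N - i)) /
          ((j + 1).factorial : ℂ)) := by
      refine sum_congr rfl fun j _ => ?_
      rw [hcA]
      rfl
    rw [e5]
    have e6 : (1 / 2 - p.1 - (1 / 2 - (m N : ℂ) / N)) * ∫ t in (0:ℝ)..1,
        fA p.2 (1 / 2 - (m N : ℂ) / N + (1 / 2 - p.1 - (1 / 2 - (m N : ℂ) / N)) * t) =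
        -((p.1 - (m N : ℂ) / N) * ∫ t in (0:ℝ)..1,
          fA p.2 (1 / 2 - ((m N : ℂ) / N + (p.1 - (m N : ℂ) / N) * t))) := by
      have e7 : ∀ t : ℝ, fA p.2 (1 / 2 - (m N : ℂ) / N +
          (1 / 2 - p.1 - (1 / 2 - (m N : ℂ) / N)) * t) =
          fA p.2 (1 / 2 - ((m N : ℂ) / N + (p.1 - (m N : ℂ) / N) * t)) := by
        intro t
        congr 1
        ring
      simp only [e7]
      ring
    rw [e6]
    simp only at h2
    rw [← norm_neg] at h2
    refine lt_of_le_of_lt (le_trans (le_of_eq ?_) ((norm_add_le _ _).trans (add_le_add h1 h2))) ?_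
    · congr 1
      ring
    · have : (34 : ℝ) / N = 34 * (1 / N) := by ring
      linarith

end Pool.Agent.Y967.CB.TI
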