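import Pool.Agent.Y967.CB.Mwk3A
import Pool.Agent.Y967.CB.TgInt2
import Pool.Agent.W711.HT.Final1

/-!
# CB3-MWK3: asymptotics of the kernel of an edge near the origin
-/

set_option autoImplicit false

namespace Pool.Agent.Y967.CB.MW

open Filter Finset Topology Metric
open scoped Real
open Pool.Agent.W711.HT
open Pool.Agent.W469.HT.Mwk
open Pool.Agent.Y472 (Tg kh SD3 S_MWK3)

/-- the limit of the exponents -/
theorem unif3 {ρ R : ℝ} {r τg : ℕ → ℂ × ℂ → ℂ} {sn : ℕ → ℂ → ℂ} (hρR : R < ρ)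
    (hru : TendstoUniformlyOn r (fun p => rrF p.1 p.2) atTop (ball (1 / 4) ρ ×ˢ ball 0 ρ))
    (hgu : TendstoUniformlyOn τg (fun p => rrF (1 / 2 - p.1) p.2) atTop
      (ball (1 / 4) ρ ×ˢ ball 0 ρ))
    (hsu : TendstoUniformlyOn sn ssF atTop (ball (1 / 4) ρ))
    (hrr : DifferentiableOn ℂ (fun p : ℂ × ℂ => rrF p.1 p.2) (ball (1 / 4) ρ ×ˢ ball 0 ρ))
    {ψ ψ' χ : ℕ → ℂ} {φ φ' η : ℂ} (hψ : ∀ N, ψ N ∈ closedBall (0 : ℂ) R)
    (hψ' : ∀ N, ψ' N ∈ closedBall (0 : ℂ) R) (hχ : ∀ N, χ N ∈ closedBall (0 : ℂ) R)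
    (hφ : φ ∈ closedBall (0 : ℂ) R)
    (hφ' : φ' ∈ closedBall (0 : ℂ) R) (hη : η ∈ closedBall (0 : ℂ) R)
    (htφ : Tendsto ψ atTop (𝓝 φ))
    (htφ' : Tendsto ψ' atTop (𝓝 φ')) (htη : Tendsto χ atTop (𝓝 η)) :
    TendstoUniformlyOn (fun N z => r N (z, ψ N) + r N (z, ψ' N) + τg N (z, χ N) - 2 * sn N z)
      (QQ3 φ φ' η) atTop (ball (1 / 4) R) := by
  have hsubc : closedBall (1 / 4 : ℂ) R ⊆ ball (1 / 4) ρ := closedBall_subset_ball hρR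
  have hsubc0 : closedBall (0 : ℂ) R ⊆ ball 0 ρ := closedBall_subset_ball hρR
  have hsub : ball (1 / 4 : ℂ) R ⊆ ball (1 / 4) ρ := ball_subset_ball hρR.le
  rw [Metric.tendstoUniformlyOn_iff]
  intro ε hε
  have hcomp : IsCompact (closedBall (1 / 4 : ℂ) R ×ˢ closedBall (0 : ℂ) R) :=
    (isCompact_closedBall _ _).prod (isCompact_closedBall _ _)
  have hcont : ContinuousOn (fun p : ℂ × ℂ => rrF p.1 p.2)
      (closedBall (1 / 4 : ℂ) R ×ˢ closedBall (0 : ℂ) R) :=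
    hrr.continuousOn.mono (Set.prod_mono hsubc hsubc0)
  have hcont' : ContinuousOn (fun p : ℂ × ℂ => rrF (1 / 2 - p.1) p.2)
      (closedBall (1 / 4 : ℂ) R ×ˢ closedBall (0 : ℂ) R) := by
    refine hcont.comp (f := fun p : ℂ × ℂ => (1 / 2 - p.1, p.2)) (by fun_prop) ?_
    rintro ⟨z, c⟩ ⟨h1, h2⟩
    refine ⟨?_, h2⟩
    simp only [mem_closedBall, dist_eq_norm] at h1 ⊢
    have e : 1 / 2 - z - 1 / 4 = -(z - 1 / 4) := by ring
    rw [e, norm_neg]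
    exact h1
  have e1 := unif_param hcomp hcont hψ hφ htφ (show 0 < ε / 8 by positivity)
  have e2 := unif_param hcomp hcont hψ' hφ' htφ' (show 0 < ε / 8 by positivity)
  have e2' := unif_param hcomp hcont' hχ hη htη (show 0 < ε / 8 by positivity)
  have e3 := (Metric.tendstoUniformlyOn_iff.1 hru) (ε / 8) (by positivity)
  have e3' := (Metric.tendstoUniformlyOn_iff.1 hgu) (ε / 8) (by positivity)
  have e4 := (Metric.tendstoUniformlyOn_iff.1 hsu) (ε / 16) (by positivity)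
  filter_upwards [e1, e2, e2', e3, e3', e4] with N f1 f2 f2' f3 f3' f4 z hz
  have g1 := f1 z (ball_subset_closedBall hz)
  have g2 := f2 z (ball_subset_closedBall hz)
  have g2' := f2' z (ball_subset_closedBall hz)
  have g3 := f3 (z, ψ N) ⟨hsub hz, hsubc0 (hψ N)⟩
  have g4 := f3 (z, ψ' N) ⟨hsub hz, hsubc0 (hψ' N)⟩
  have g4' := f3' (z, χ N) ⟨hsub hz, hsubc0 (hχ N)⟩
  have g5 := f4 z (hsub hz)
  rw [dist_eq_norm] at g3 g4 g4' g5 ⊢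
  simp only at g1 g2 g2' g3 g4 g4'
  have e : QQ3 φ φ' η z - (r N (z, ψ N) + r N (z, ψ' N) + τg N (z, χ N) - 2 * sn N z) =
      -(rrF z (ψ N) - rrF z φ) + -(rrF z (ψ' N) - rrF z φ') +
      -(rrF (1 / 2 - z) (χ N) - rrF (1 / 2 - z) η) +
      (rrF z (ψ N) - r N (z, ψ N)) + (rrF z (ψ' N) - r N (z, ψ' N)) +
      (rrF (1 / 2 - z) (χ N) - τg N (z, χ N)) +
      -(2 * (ssF z - sn N z)) := by
    unfold QQ3
    ring
  rw [e]
  refine (norm_add_le _ _).trans_lt ?_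
  have t0 := norm_add_le (-(rrF z (ψ N) - rrF z φ) + -(rrF z (ψ' N) - rrF z φ') +
      -(rrF (1 / 2 - z) (χ N) - rrF (1 / 2 - z) η) +
      (rrF z (ψ N) - r N (z, ψ N)) + (rrF z (ψ' N) - r N (z, ψ' N)))
      (rrF (1 / 2 - z) (χ N) - τg N (z, χ N))
  have t1 := norm_add_le (-(rrF z (ψ N) - rrF z φ) + -(rrF z (ψ' N) - rrF z φ') +
      -(rrF (1 / 2 - z) (χ N) - rrF (1 / 2 - z) η) +
      (rrF z (ψ N) - r N (z, ψ N))) (rrF z (ψ' N) - r N (z, ψ' N))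
  have t2 := norm_add_le (-(rrF z (ψ N) - rrF z φ) + -(rrF z (ψ' N) - rrF z φ') +
      -(rrF (1 / 2 - z) (χ N) - rrF (1 / 2 - z) η))
      (rrF z (ψ N) - r N (z, ψ N))
  have t3 := norm_add_le (-(rrF z (ψ N) - rrF z φ) + -(rrF z (ψ' N) - rrF z φ'))
    (-(rrF (1 / 2 - z) (χ N) - rrF (1 / 2 - z) η))
  have t3' := norm_add_le (-(rrF z (ψ N) - rrF z φ)) (-(rrF z (ψ' N) - rrF z φ'))
  rw [norm_neg] at t3
  rw [norm_neg, norm_neg] at t3'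
  have t4 : ‖-(2 * (ssF z - sn N z))‖ = 2 * ‖ssF z - sn N z‖ := by
    rw [norm_neg, norm_mul]
    norm_num
  rw [t4]
  linarith

/-- the kernel along a sequence -/
theorem seq3 {ρ : ℝ} {r τg : ℕ → ℂ × ℂ → ℂ} {sn : ℕ → ℂ → ℂ} {R w κ τ : ℝ} (hLS : S_LAPSUM)
    (hρR : R < ρ) (hw : 0 < w) (hwR : w ≤ R / 2) (hw16 : w ≤ 1 / 16)
    (hr : ∀ᶠ N : ℕ in atTop, DifferentiableOn ℂ (r N) (ball (1 / 4) ρ ×ˢ ball 0 ρ))
    (hg : ∀ᶠ N : ℕ in atTop, DifferentiableOn ℂ (τg N) (ball (1 / 4) ρ ×ˢ ball 0 ρ))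
    (hs : ∀ᶠ N : ℕ in atTop, DifferentiableOn ℂ (sn N) (ball (1 / 4) ρ))
    (hE : ∀ᶠ N : ℕ in atTop, ∀ d : ℕ, |(d : ℝ) / N - 1 / 4| < ρ →
      (∀ ψ ∈ ball (0 : ℂ) ρ, Rp N d ψ = Complex.exp (N * r N ((d : ℂ) / N, ψ))) ∧
      (Sd N d : ℂ) = Complex.exp (N * sn N ((d : ℂ) / N)))
    (hG : ∀ᶠ N : ℕ in atTop, ∀ d : ℕ, |(d : ℝ) / N - 1 / 4| < ρ →
      ∀ χ ∈ ball (0 : ℂ) ρ, Tg N d χ = Complex.exp (N * τg N ((d : ℂ) / N, χ)))
    (hru : TendstoUniformlyOn r (fun p => rrF p.1 p.2) atTop (ball (1 / 4) ρ ×ˢ ball 0 ρ))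
    (hgu : TendstoUniformlyOn τg (fun p => rrF (1 / 2 - p.1) p.2) atTop
      (ball (1 / 4) ρ ×ˢ ball 0 ρ))
    (hsu : TendstoUniformlyOn sn ssF atTop (ball (1 / 4) ρ))
    (hrr : DifferentiableOn ℂ (fun p : ℂ × ℂ => rrF p.1 p.2) (ball (1 / 4) ρ ×ˢ ball 0 ρ))
    (hQ1 : ∀ z ∈ ball (1 / 4 : ℂ) ρ, ∀ ψ ∈ ball (0 : ℂ) ρ, ∀ ψ' ∈ ball (0 : ℂ) ρ,
      ∀ χ ∈ ball (0 : ℂ) ρ, HasDerivAt (QQ3 ψ ψ' χ) (D13 ψ ψ' χ z) z)
    (hQ2 : ∀ z ∈ ball (1 / 4 : ℂ) ρ, ∀ ψ ∈ ball (0 : ℂ) ρ, ∀ ψ' ∈ ball (0 : ℂ) ρ,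
      ∀ χ ∈ ball (0 : ℂ) ρ,
      HasDerivAt (D13 ψ ψ' χ) (D23 (z, ψ, ψ', χ)) z ∧ ‖D23 (z, ψ, ψ', χ) + 8 * π‖ ≤ 2 / 5 * π)
    (hκ : 0 < κ)
    (hF : ∀ᶠ N : ℕ in atTop, ∀ d ≤ (N - 1) / 2, w / 2 ≤ |(d : ℝ) / N - 1 / 4| →
      ∀ ψ ψ' χ : ℂ, |ψ.re| ≤ π → |ψ.im| ≤ τ → |ψ'.re| ≤ π → |ψ'.im| ≤ τ → |χ.re| ≤ π →
      |χ.im| ≤ τ → ‖Rp N d ψ * Rp N d ψ' * Tg N d χ / (Sd N d : ℂ) ^ 2‖ ≤
        Real.exp (N * (2 * bet - κ)))
    {ψ ψ' χ : ℕ → ℂ} {φ φ' η z₀ : ℂ} (hψ : ∀ N, ψ N ∈ closedBall (0 : ℂ) R)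
    (hψ' : ∀ N, ψ' N ∈ closedBall (0 : ℂ) R) (hχ : ∀ N, χ N ∈ closedBall (0 : ℂ) R)
    (hφ : φ ∈ closedBall (0 : ℂ) R)
    (hφ' : φ' ∈ closedBall (0 : ℂ) R) (hη : η ∈ closedBall (0 : ℂ) R)
    (hy : ∀ N, |(ψ N).re| ≤ π ∧ |(ψ N).im| ≤ τ) (hy' : ∀ N, |(ψ' N).re| ≤ π ∧ |(ψ' N).im| ≤ τ)
    (hyχ : ∀ N, |(χ N).re| ≤ π ∧ |(χ N).im| ≤ τ)
    (htφ : Tendsto ψ atTop (𝓝 φ))
    (htφ' : Tendsto ψ' atTop (𝓝 φ')) (htη : Tendsto χ atTop (𝓝 η))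
    (hz₀ : ‖z₀ - 1 / 4‖ ≤ w / 20) (hcr : D13 φ φ' η z₀ = 0)
    (hL0 : 0 < (QQ3 φ φ' η z₀).re) (hL : 2 * bet - κ / 2 ≤ (QQ3 φ φ' η z₀).re) :
    Tendsto (fun N : ℕ => Real.log ‖kh N (ψ N) (ψ' N) (χ N)‖ / N) atTop
      (𝓝 (QQ3 φ φ' η z₀).re) := by
  have hsubc0 : closedBall (0 : ℂ) R ⊆ ball 0 ρ := closedBall_subset_ball hρR
  have hsub : ball (1 / 4 : ℂ) R ⊆ ball (1 / 4) ρ := ball_subset_ball hρR.le
  have hwin := window_abs (q := fun N z => r N (z, ψ N) + r N (z, ψ' N) + τg N (z, χ N) -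
      2 * sn N z) (Q := QQ3 φ φ' η) (Q1 := D13 φ φ' η) (Q2 := fun z => D23 (z, φ, φ', η))
      (R := R) (z₀ := z₀) hLS hw hwR hw16 (by
        filter_upwards [hr, hg, hs] with N h1 h1' h2
        have h3 : ∀ χ ∈ closedBall (0 : ℂ) R,
            DifferentiableOn ℂ (fun z : ℂ => r N (z, χ)) (ball (1 / 4 : ℂ) R) := by
          intro χ hχ
          refine h1.comp (f := fun z : ℂ => (z, χ)) (by fun_prop) ?_
          intro z hz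
          exact ⟨hsub hz, hsubc0 hχ⟩
        have h3' : ∀ χ ∈ closedBall (0 : ℂ) R,
            DifferentiableOn ℂ (fun z : ℂ => τg N (z, χ)) (ball (1 / 4 : ℂ) R) := by
          intro χ hχ
          refine h1'.comp (f := fun z : ℂ => (z, χ)) (by fun_prop) ?_
          intro z hz
          exact ⟨hsub hz, hsubc0 hχ⟩
        exact (((h3 _ (hψ N)).add (h3 _ (hψ' N))).add (h3' _ (hχ N))).sub
          ((h2.mono hsub).const_mul 2))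
      (unif3 hρR hru hgu hsu hrr hψ hψ' hχ hφ hφ' hη htφ htφ' htη)
      (fun z hz => hQ1 z (hsub hz) _ (hsubc0 hφ) _ (hsubc0 hφ') _ (hsubc0 hη))
      (fun z hz => (hQ2 z (hsub hz) _ (hsubc0 hφ) _ (hsubc0 hφ') _ (hsubc0 hη)).1)
      (fun z hz => (hQ2 z (hsub hz) _ (hsubc0 hφ) _ (hsubc0 hφ') _ (hsubc0 hη)).2)
      hz₀ hcr
  set W : ℕ → ℂ := fun N => ∑ d ∈ Ico (⌈(1 / 4 - w) * N⌉₊) (⌊(1 / 4 + w) * N⌋₊),
      Complex.exp (N * (r N ((d : ℂ) / N, ψ N) + r N ((d : ℂ) / N, ψ' N) +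
        τg N ((d : ℂ) / N, χ N) - 2 * sn N ((d : ℂ) / N))) with hW
  have hIsub : ∀ᶠ N : ℕ in atTop, Ico (⌈(1 / 4 - w) * N⌉₊) (⌊(1 / 4 + w) * N⌋₊) ⊆
      range ((N - 1) / 2 + 1) := by
    filter_upwards [eventually_ge_atTop 16] with N hN d hd
    rw [Finset.mem_Ico] at hd
    rw [Finset.mem_range]
    have h1 : (d : ℝ) < (1 / 4 + w) * N := Nat.lt_of_lt_floor hd.2
    have hN' : (16 : ℝ) ≤ N := by exact_mod_cast hN
    have h2 : (16 : ℝ) * d < 5 * N := by nlinarith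
    have h3 : 16 * d < 5 * N := by exact_mod_cast h2
    omega
  -- the window is the part of the kernel
  have hWeq : ∀ᶠ N : ℕ in atTop, W N =
      ∑ d ∈ Ico (⌈(1 / 4 - w) * N⌉₊) (⌊(1 / 4 + w) * N⌋₊),
        Rp N d (ψ N) * Rp N d (ψ' N) * Tg N d (χ N) / (Sd N d : ℂ) ^ 2 := by
    filter_upwards [hE, hG, eventually_gt_atTop 0] with N h1 h1' h2
    have hN : (0 : ℝ) < N := by exact_mod_cast h2
    rw [hW]
    refine Finset.sum_congr rfl fun d hd => ?_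
    rw [Finset.mem_Ico] at hd
    have g1 : (1 / 4 - w) * N ≤ d := Nat.le_of_ceil_le hd.1
    have g2 : (d : ℝ) < (1 / 4 + w) * N := Nat.lt_of_lt_floor hd.2
    have g3 : |(d : ℝ) / N - 1 / 4| < ρ := by
      have g4 : 1 / 4 - w ≤ (d : ℝ) / N := by rwa [le_div_iff₀ hN]
      have g5 : (d : ℝ) / N < 1 / 4 + w := by rwa [div_lt_iff₀ hN]
      rw [abs_lt]
      constructor <;> linarith
    obtain ⟨a1, a2⟩ := h1 d g3
    rw [a1 _ (hsubc0 (hψ N)), a1 _ (hsubc0 (hψ' N)), a2, h1' d g3 _ (hsubc0 (hχ N)),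
      ← Complex.exp_add, ← Complex.exp_add, ← Complex.exp_nat_mul, ← Complex.exp_sub]
    congr 1
    push_cast
    ring
  set T : ℕ → ℂ := fun N => kh N (ψ N) (ψ' N) (χ N) - W N with hT
  have hTb : ∀ᶠ N : ℕ in atTop, ‖T N‖ ≤ N * Real.exp (N * ((QQ3 φ φ' η z₀).re - κ / 2)) := by
    have hbig : ∀ᶠ N : ℕ in atTop, 2 / w ≤ (N : ℝ) :=
      tendsto_natCast_atTop_atTop.eventually_ge_atTop _
    filter_upwards [hWeq, hIsub, hF, hbig, eventually_gt_atTop 0] with N h1 hIs h2 h3 h4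
    have hN : (0 : ℝ) < N := by exact_mod_cast h4
    have hNw : 1 / (N : ℝ) ≤ w / 2 := by
      rw [div_le_iff₀ hw] at h3
      rw [div_le_iff₀ hN]
      linarith
    have e1 : T N = ∑ d ∈ range ((N - 1) / 2 + 1) \ Ico (⌈(1 / 4 - w) * N⌉₊) (⌊(1 / 4 + w) * N⌋₊),
        Rp N d (ψ N) * Rp N d (ψ' N) * Tg N d (χ N) / (Sd N d : ℂ) ^ 2 := by
      rw [hT]
      simp only
      rw [h1, kh, ← Finset.sum_sdiff hIs]
      ring
    rw [e1]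
    have e2 : ∀ d ∈ range ((N - 1) / 2 + 1) \ Ico (⌈(1 / 4 - w) * N⌉₊) (⌊(1 / 4 + w) * N⌋₊),
        ‖Rp N d (ψ N) * Rp N d (ψ' N) * Tg N d (χ N) / (Sd N d : ℂ) ^ 2‖ ≤
          Real.exp (N * ((QQ3 φ φ' η z₀).re - κ / 2)) := by
      intro d hd
      rw [Finset.mem_sdiff, Finset.mem_range, Finset.mem_Ico, not_and_or, not_le, not_lt] at hd
      obtain ⟨hdN, hd⟩ := hd
      have g1 : w / 2 ≤ |(d : ℝ) / N - 1 / 4| := by
        rcases hd with hd | hd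
        · have g2 : (d : ℝ) < (1 / 4 - w) * N := Nat.lt_ceil.1 hd
          have g3 : (d : ℝ) / N < 1 / 4 - w := by rwa [div_lt_iff₀ hN]
          rw [le_abs]
          right
          linarith
        · have g2 : (1 / 4 + w) * N < (d : ℝ) + 1 :=
            (Nat.lt_floor_add_one _).trans_le (by exact_mod_cast Nat.succ_le_succ hd)
          have g3 : 1 / 4 + w < (d : ℝ) / N + 1 / N := by
            rw [← add_div, lt_div_iff₀ hN]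
            exact g2
          rw [le_abs]
          left
          linarith
      refine (h2 d (by omega) g1 _ _ _ (hy N).1 (hy N).2 (hy' N).1 (hy' N).2 (hyχ N).1
        (hyχ N).2).trans (Real.exp_le_exp.2 ?_)
      refine mul_le_mul_of_nonneg_left ?_ hN.le
      linarith
    refine (norm_sum_le _ _).trans ((Finset.sum_le_card_nsmul _ _ _ e2).trans ?_)
    rw [nsmul_eq_mul]
    have e3 : ((range ((N - 1) / 2 + 1) \
        Ico (⌈(1 / 4 - w) * N⌉₊) (⌊(1 / 4 + w) * N⌋₊)).card : ℝ) ≤ N := by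
      have := Finset.card_le_card (Finset.sdiff_subset
        (s := range ((N - 1) / 2 + 1)) (t := Ico (⌈(1 / 4 - w) * N⌉₊) (⌊(1 / 4 + w) * N⌋₊)))
      rw [Finset.card_range] at this
      have h5 : (N - 1) / 2 + 1 ≤ N := by omega
      exact_mod_cast this.trans h5
    gcongr
  have hfin := absorb hL0 (by positivity : 0 < κ / 2) hwin hTb
  refine hfin.congr fun N => ?_
  rw [hT]
  simp only
  rw [add_sub_cancel]

/-- positivity of `bet` -/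
theorem bet_pos' : 0 < bet := by
  obtain ⟨κ, hκ, τ, hτ, hF⟩ := f_FARD (1 / 8) (by norm_num)
  obtain ⟨N, h1, h2⟩ := (hF.and (eventually_gt_atTop 0)).exists
  have hN : (0 : ℝ) < N := by exact_mod_cast h2
  have h3 := h1 0 h2 (by
    rw [Nat.cast_zero, zero_div, zero_sub, abs_neg, abs_of_pos (by norm_num)]
    norm_num) 0 0 (by rw [abs_zero]; exact Real.pi_pos.le) (by rw [abs_zero]; exact hτ.le)
  have e1 : ∀ ψ : ℂ, Rp N 0 ψ = 1 := fun ψ => by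
    unfold Rp
    rw [Finset.range_zero, Finset.prod_empty]
  have e2 : Sd N 0 = 1 := by
    unfold Sd
    rw [Finset.range_zero, Finset.prod_empty]
  rw [e1, e2, norm_one, one_pow, one_mul, ← Real.exp_zero, Real.exp_le_exp] at h3
  have h4 : 0 ≤ bet - κ := by
    by_contra hcon
    have := mul_neg_of_pos_of_neg hN (not_le.1 hcon)
    linarith
  linarith

theorem mwk3 : S_MWK3 := by
  intro hKB ρ₀ c C s dl hSD
  obtain ⟨-, hFAR⟩ := hKB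
  have hLS : S_LAPSUM := Pool.Agent.W588.HT.lapsum0
  have hSEQ : S_SEQ := Pool.Agent.W583.HT.seq
  obtain ⟨ρi, hρi, hρi8, r, sn, hr0, hs0, hE0, hru0, hsu0⟩ := f_INT
  obtain ⟨ρg, hρg, hρg8, τg, hg0, hG0, hgu0⟩ := TI.tg_int Pool.Agent.W176.HTN.newt
  obtain ⟨ρr, hρr, hrr0, -, hder, -⟩ := f_RRD
  obtain ⟨Rn, hRn, hnear⟩ := near3
  obtain ⟨ρ, hρdef⟩ : ∃ ρ : ℝ, ρ = min (min (min ρi ρg) ρr) Rn := ⟨_, rfl⟩
  have hρ : 0 < ρ := by rw [hρdef]; exact lt_min (lt_min (lt_min hρi hρg) hρr) hRn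
  have hρi' : ρ ≤ ρi := by
    rw [hρdef]; exact (min_le_left _ _).trans ((min_le_left _ _).trans (min_le_left _ _))
  have hρg' : ρ ≤ ρg := by
    rw [hρdef]; exact (min_le_left _ _).trans ((min_le_left _ _).trans (min_le_right _ _))
  have hρr' : ρ ≤ ρr := by rw [hρdef]; exact (min_le_left _ _).trans (min_le_right _ _)
  have hρn' : ρ ≤ Rn := by rw [hρdef]; exact min_le_right _ _
  have hbi : ball (1 / 4 : ℂ) ρ ⊆ ball (1 / 4) ρi := ball_subset_ball hρi'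
  have hbi0 : ball (0 : ℂ) ρ ⊆ ball 0 ρi := ball_subset_ball hρi'
  have hbg : ball (1 / 4 : ℂ) ρ ⊆ ball (1 / 4) ρg := ball_subset_ball hρg'
  have hbg0 : ball (0 : ℂ) ρ ⊆ ball 0 ρg := ball_subset_ball hρg'
  have hbr : ball (1 / 4 : ℂ) ρ ⊆ ball (1 / 4) ρr := ball_subset_ball hρr'
  have hbr0 : ball (0 : ℂ) ρ ⊆ ball 0 ρr := ball_subset_ball hρr'
  have hr : ∀ᶠ N : ℕ in atTop, DifferentiableOn ℂ (r N) (ball (1 / 4) ρ ×ˢ ball 0 ρ) := by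
    filter_upwards [hr0] with N h
    exact h.mono (Set.prod_mono hbi hbi0)
  have hg : ∀ᶠ N : ℕ in atTop, DifferentiableOn ℂ (τg N) (ball (1 / 4) ρ ×ˢ ball 0 ρ) := by
    filter_upwards [hg0] with N h
    exact h.mono (Set.prod_mono hbg hbg0)
  have hs : ∀ᶠ N : ℕ in atTop, DifferentiableOn ℂ (sn N) (ball (1 / 4) ρ) := by
    filter_upwards [hs0] with N h
    exact h.mono hbi
  have hE : ∀ᶠ N : ℕ in atTop, ∀ d : ℕ, |(d : ℝ) / N - 1 / 4| < ρ →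
      (∀ ψ ∈ ball (0 : ℂ) ρ, Rp N d ψ = Complex.exp (N * r N ((d : ℂ) / N, ψ))) ∧
      (Sd N d : ℂ) = Complex.exp (N * sn N ((d : ℂ) / N)) := by
    filter_upwards [hE0] with N h d hd
    obtain ⟨h1, h2⟩ := h d (hd.trans_le hρi')
    exact ⟨fun ψ hψ => h1 ψ (hbi0 hψ), h2⟩
  have hG : ∀ᶠ N : ℕ in atTop, ∀ d : ℕ, |(d : ℝ) / N - 1 / 4| < ρ →
      ∀ χ ∈ ball (0 : ℂ) ρ, Tg N d χ = Complex.exp (N * τg N ((d : ℂ) / N, χ)) := by
    filter_upwards [hG0] with N h d hd χ hχ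
    exact h d (hd.trans_le hρg') χ (hbg0 hχ)
  have hru : TendstoUniformlyOn r (fun p => rrF p.1 p.2) atTop (ball (1 / 4) ρ ×ˢ ball 0 ρ) :=
    hru0.mono (Set.prod_mono hbi hbi0)
  have hgu : TendstoUniformlyOn τg (fun p => rrF (1 / 2 - p.1) p.2) atTop
      (ball (1 / 4) ρ ×ˢ ball 0 ρ) := hgu0.mono (Set.prod_mono hbg hbg0)
  have hsu : TendstoUniformlyOn sn ssF atTop (ball (1 / 4) ρ) := hsu0.mono hbi
  have hrr : DifferentiableOn ℂ (fun p : ℂ × ℂ => rrF p.1 p.2) (ball (1 / 4) ρ ×ˢ ball 0 ρ) :=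
    hrr0.mono (Set.prod_mono hbr hbr0)
  have hQ1 : ∀ z ∈ ball (1 / 4 : ℂ) ρ, ∀ ψ ∈ ball (0 : ℂ) ρ, ∀ ψ' ∈ ball (0 : ℂ) ρ,
      ∀ χ ∈ ball (0 : ℂ) ρ, HasDerivAt (QQ3 ψ ψ' χ) (D13 ψ ψ' χ z) z := by
    intro z hz ψ hψ ψ' hψ' χ hχ
    have h1 := hder z (hbr hz) ψ (hbr0 hψ)
    have h2 := hder z (hbr hz) ψ' (hbr0 hψ')
    have hz' : 1 / 2 - z ∈ ball (1 / 4 : ℂ) ρr := by
      have h3 := hbr hz
      rw [mem_ball, dist_eq_norm] at h3 ⊢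
      have e : 1 / 2 - z - 1 / 4 = -(z - 1 / 4) := by ring
      rw [e, norm_neg]
      exact h3
    have h3 := (hder (1 / 2 - z) hz' χ (hbr0 hχ)).1
    have h4 : HasDerivAt (fun z : ℂ => 1 / 2 - z) (-1) z := by
      exact (hasDerivAt_id z).const_sub (1 / 2)
    have h5 := HasDerivAt.comp z h3 h4
    have e1 : Complex.cos (2 * π * (1 / 2 - z)) = -Complex.cos (2 * π * z) := by
      have e2 : 2 * (π : ℂ) * (1 / 2 - z) = π - 2 * π * z := by ring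
      rw [e2, Complex.cos_pi_sub]
    have h6 : HasDerivAt (fun z : ℂ => rrF (1 / 2 - z) χ)
        (-Complex.log (2 * Complex.cos χ - 2 * Complex.cos (2 * π * z))) z := by
      refine h5.congr_deriv ?_
      rw [e1]
      rw [mul_neg_one, mul_neg, ← sub_eq_add_neg]
    refine (((h1.1.add h2.1).add h6).sub (h1.2.2.const_mul 2)).congr_deriv ?_
    unfold D13
    ring
  have hQ2 : ∀ z ∈ ball (1 / 4 : ℂ) ρ, ∀ ψ ∈ ball (0 : ℂ) ρ, ∀ ψ' ∈ ball (0 : ℂ) ρ,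
      ∀ χ ∈ ball (0 : ℂ) ρ,
      HasDerivAt (D13 ψ ψ' χ) (D23 (z, ψ, ψ', χ)) z ∧
        ‖D23 (z, ψ, ψ', χ) + 8 * π‖ ≤ 2 / 5 * π := by
    intro z hz ψ hψ ψ' hψ' χ hχ
    rw [mem_ball, dist_eq_norm] at hz
    rw [mem_ball, dist_zero_right] at hψ hψ' hχ
    obtain ⟨h1, h2, h2', h3, h4⟩ := hnear z ψ ψ' χ (hz.trans_le hρn') (hψ.trans_le hρn')
      (hψ'.trans_le hρn') (hχ.trans_le hρn')
    exact ⟨hasDerivAt_D13 h1 h2 h2' h3, h4⟩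
  obtain ⟨R, hRdef⟩ : ∃ R : ℝ, R = ρ / 2 := ⟨_, rfl⟩
  have hR : 0 < R := by rw [hRdef]; positivity
  have hρR : R < ρ := by rw [hRdef]; linarith
  obtain ⟨w, hwdef⟩ : ∃ w : ℝ, w = min (R / 2) (1 / 16) := ⟨_, rfl⟩
  have hw : 0 < w := by rw [hwdef]; exact lt_min (by positivity) (by norm_num)
  have hwR : w ≤ R / 2 := by rw [hwdef]; exact min_le_left _ _
  have hw16 : w ≤ 1 / 16 := by rw [hwdef]; exact min_le_right _ _
  obtain ⟨κ₀, hκ₀, τ, hτ, hF₀⟩ := hFAR (w / 2) (by positivity)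
  obtain ⟨κ, hκdef⟩ : ∃ κ : ℝ, κ = min κ₀ bet := ⟨_, rfl⟩
  have hκ : 0 < κ := by rw [hκdef]; exact lt_min hκ₀ bet_pos'
  have hbet : κ ≤ bet := by rw [hκdef]; exact min_le_right _ _
  have hκκ : κ ≤ κ₀ := by rw [hκdef]; exact min_le_left _ _
  have hF : ∀ᶠ N : ℕ in atTop, ∀ d ≤ (N - 1) / 2, w / 2 ≤ |(d : ℝ) / N - 1 / 4| →
      ∀ ψ ψ' χ : ℂ, |ψ.re| ≤ π → |ψ.im| ≤ τ → |ψ'.re| ≤ π → |ψ'.im| ≤ τ → |χ.re| ≤ π →
      |χ.im| ≤ τ → ‖Rp N d ψ * Rp N d ψ' * Tg N d χ / (Sd N d : ℂ) ^ 2‖ ≤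
        Real.exp (N * (2 * bet - κ)) := by
    filter_upwards [hF₀] with N h d hd hd2 ψ ψ' χ a1 a2 a3 a4 a5 a6
    refine (h d hd hd2 ψ ψ' χ a1 a2 a3 a4 a5 a6).trans (Real.exp_le_exp.2 ?_)
    exact mul_le_mul_of_nonneg_left (by linarith) (Nat.cast_nonneg N)
  have hC := hSD.hC
  have hρ₀ := hSD.hρ.1
  obtain ⟨t, htdef⟩ : ∃ t : ℝ, t = min (min (min (ρ₀ / 2) τ) (min 1 (R / 2)))
    (min (w / (240 * C)) (κ / (2 * (12 + 1296 * C)))) := ⟨_, rfl⟩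
  have ht : 0 < t := by
    rw [htdef]
    refine lt_min (lt_min (lt_min (by positivity) hτ) (lt_min one_pos (by positivity)))
      (lt_min (by positivity) (by positivity))
  have ht1 : t ≤ ρ₀ / 2 := by
    rw [htdef]
    exact (min_le_left _ _).trans ((min_le_left _ _).trans (min_le_left _ _))
  have ht2 : t ≤ τ := by
    rw [htdef]
    exact (min_le_left _ _).trans ((min_le_left _ _).trans (min_le_right _ _))
  have ht3 : t ≤ 1 := by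
    rw [htdef]
    exact (min_le_left _ _).trans ((min_le_right _ _).trans (min_le_left _ _))
  have ht4 : t ≤ R / 2 := by
    rw [htdef]
    exact (min_le_left _ _).trans ((min_le_right _ _).trans (min_le_right _ _))
  have ht5 : t ≤ w / (240 * C) := by
    rw [htdef]
    exact (min_le_right _ _).trans (min_le_left _ _)
  have ht6 : t ≤ κ / (2 * (12 + 1296 * C)) := by
    rw [htdef]
    exact (min_le_right _ _).trans (min_le_right _ _)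
  clear htdef
  -- the compact set
  obtain ⟨K1, hK1def⟩ : ∃ K1 : Set ℂ, K1 = Set.Icc (-t) t ×ℂ Set.Icc (-t) t := ⟨_, rfl⟩
  have hK1mem : ∀ z : ℂ, z ∈ K1 ↔ |z.re| ≤ t ∧ |z.im| ≤ t := by
    intro z
    rw [hK1def, Complex.mem_reProdIm, Set.mem_Icc, Set.mem_Icc, abs_le, abs_le]
  have hK1c : IsCompact K1 := by
    rw [hK1def]
    exact isCompact_Icc.reProdIm isCompact_Icc
  obtain ⟨K, hKdef⟩ : ∃ K : Set (ℂ × ℂ × ℂ), K = K1 ×ˢ K1 ×ˢ K1 := ⟨_, rfl⟩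
  have hKmem : ∀ p : ℂ × ℂ × ℂ, p ∈ K ↔
      (|p.1.re| ≤ t ∧ |p.1.im| ≤ t) ∧ (|p.2.1.re| ≤ t ∧ |p.2.1.im| ≤ t) ∧
        (|p.2.2.re| ≤ t ∧ |p.2.2.im| ≤ t) := by
    intro p
    rw [hKdef, Set.mem_prod, Set.mem_prod, hK1mem, hK1mem, hK1mem]
  have hKc : IsCompact K := by
    rw [hKdef]
    exact hK1c.prod (hK1c.prod hK1c)
  have hKR : ∀ z : ℂ, |z.re| ≤ t → |z.im| ≤ t → z ∈ closedBall (0 : ℂ) R := by
    intro z h1 h2
    rw [mem_closedBall, dist_zero_right]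
    have := norm_le_two h1 h2
    linarith
  have hKRc : ∀ z : ℂ, |z.re| ≤ t → |z.im| ≤ t → z ∈ Rc ρ₀ ρ₀ := by
    intro z h1 h2
    exact ⟨by linarith, by linarith⟩
  have htt : t ^ 2 ≤ t := by nlinarith
  have ht4' : t ^ 4 ≤ t := by
    have : t ^ 4 = t ^ 2 * t ^ 2 := by ring
    nlinarith [sq_nonneg t]
  have hdl : ∀ p ∈ K, ‖dl p.1 p.2.1 p.2.2 - 1 / 4‖ ≤ w / 20 := by
    intro p hp
    obtain ⟨⟨h1, h2⟩, ⟨h3, h4⟩, h3', h4'⟩ := (hKmem p).1 hp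
    refine (hSD.dclose _ (hKRc _ h1 h2) _ (hKRc _ h3 h4) _ (hKRc _ h3' h4')).2.trans ?_
    have h5 := norm_le_two h1 h2
    have h6 := norm_le_two h3 h4
    have h6' := norm_le_two h3' h4'
    have h8 : C * t ≤ w / 240 := by
      rw [le_div_iff₀ (by positivity)] at ht5
      linarith
    calc C * (‖p.1‖ ^ 2 + ‖p.2.1‖ ^ 2 + ‖p.2.2‖ ^ 2) ≤
          C * ((2 * t) ^ 2 + (2 * t) ^ 2 + (2 * t) ^ 2) := by gcongr
      _ = 12 * C * t ^ 2 := by ring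
      _ ≤ 12 * C * t := by gcongr
      _ ≤ w / 20 := by linarith
  have hlow : ∀ p ∈ K, 2 * bet - κ / 2 ≤ (s p.1 p.2.1 p.2.2).re := by
    intro p hp
    obtain ⟨⟨h1, h2⟩, ⟨h3, h4⟩, h3', h4'⟩ := (hKmem p).1 hp
    have h := hSD.low _ (hKRc _ h1 h2) _ (hKRc _ h3 h4) _ (hKRc _ h3' h4')
    have h5 := norm_le_two h1 h2
    have h6 := norm_le_two h3 h4
    have h6' := norm_le_two h3' h4'
    have h7 : C * (‖p.1‖ + ‖p.2.1‖ + ‖p.2.2‖) ^ 4 ≤ C * (2 * t + 2 * t + 2 * t) ^ 4 := by gcongr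
    have h8 : C * (2 * t + 2 * t + 2 * t) ^ 4 ≤ 1296 * C * t := by
      calc C * (2 * t + 2 * t + 2 * t) ^ 4 = 1296 * C * t ^ 4 := by ring
        _ ≤ 1296 * C * t := by gcongr
    have h9 := (Complex.abs_re_le_norm _).trans (h.trans (h7.trans h8))
    have h10 : ‖(p.1 ^ 2 + p.2.1 ^ 2 + p.2.2 ^ 2) / (4 * (π : ℂ))‖ ≤ 12 * t := by
      rw [norm_div, norm_mul, Complex.norm_real, Real.norm_of_nonneg Real.pi_pos.le]
      have e1 : ‖(4 : ℂ)‖ = 4 := by norm_num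
      rw [e1]
      have e2 : ‖p.1 ^ 2 + p.2.1 ^ 2 + p.2.2 ^ 2‖ ≤ 12 * t := by
        calc ‖p.1 ^ 2 + p.2.1 ^ 2 + p.2.2 ^ 2‖ ≤ ‖p.1‖ ^ 2 + ‖p.2.1‖ ^ 2 + ‖p.2.2‖ ^ 2 := by
              refine (norm_add_le _ _).trans ?_
              rw [norm_pow]
              refine add_le_add_left ?_ _
              refine (norm_add_le _ _).trans ?_
              rw [norm_pow, norm_pow]
          _ ≤ (2 * t) ^ 2 + (2 * t) ^ 2 + (2 * t) ^ 2 := by gcongr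
          _ = 12 * t ^ 2 := by ring
          _ ≤ 12 * t := by gcongr
      refine (div_le_self (norm_nonneg _) ?_).trans e2
      have := Real.pi_gt_three
      linarith
    have h11 := (Complex.abs_re_le_norm _).trans h10
    have e3 : (s p.1 p.2.1 p.2.2 - (2 * (bet : ℂ) - (p.1 ^ 2 + p.2.1 ^ 2 + p.2.2 ^ 2) /
        (4 * (π : ℂ)))).re = (s p.1 p.2.1 p.2.2).re - (2 * bet -
          ((p.1 ^ 2 + p.2.1 ^ 2 + p.2.2 ^ 2) / (4 * (π : ℂ))).re) := by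
      rw [Complex.sub_re, Complex.sub_re, show (2 * (bet : ℂ)) = ((2 * bet : ℝ) : ℂ) by
        push_cast; ring, Complex.ofReal_re]
    rw [e3] at h9
    have h12 : (12 + 1296 * C) * t ≤ κ / 2 := by
      rw [le_div_iff₀ (by positivity)] at ht6
      linarith
    have h13 := (abs_le.1 h9).1
    have h14 := (abs_le.1 h11).2
    linarith
  have hcrit : ∀ p ∈ K, s p.1 p.2.1 p.2.2 = QQ3 p.1 p.2.1 p.2.2 (dl p.1 p.2.1 p.2.2) ∧
      D13 p.1 p.2.1 p.2.2 (dl p.1 p.2.1 p.2.2) = 0 := by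
    intro p hp
    obtain ⟨⟨h1, h2⟩, ⟨h3, h4⟩, h3', h4'⟩ := (hKmem p).1 hp
    refine ⟨hSD.scrit _ (hKRc _ h1 h2) _ (hKRc _ h3 h4) _ (hKRc _ h3' h4'), ?_⟩
    have h5 := hSD.dcrit _ (hKRc _ h1 h2) _ (hKRc _ h3 h4) _ (hKRc _ h3' h4')
    unfold D13
    linear_combination h5
  have hΦ : ContinuousOn (fun p : ℂ × ℂ × ℂ => (s p.1 p.2.1 p.2.2).re) K := by
    refine Complex.continuous_re.comp_continuousOn (hSD.san.continuousOn.mono ?_)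
    intro p hp
    obtain ⟨⟨h1, h2⟩, ⟨h3, h4⟩, h3', h4'⟩ := (hKmem p).1 hp
    exact ⟨hKRc _ h1 h2, hKRc _ h3 h4, hKRc _ h3' h4'⟩
  have hmain := hSEQ (ℂ × ℂ × ℂ) K hKc
    (fun N p => Real.log ‖kh N p.1 p.2.1 p.2.2‖ / N) (fun p => (s p.1 p.2.1 p.2.2).re) hΦ (by
    intro p p₀ hp₀ hp htp
    have hpi := Real.pi_gt_three
    have htp1 : Tendsto (fun N => (p N).1) atTop (𝓝 p₀.1) :=
      (continuous_fst.tendsto p₀).comp htp
    have htp2 : Tendsto (fun N => (p N).2.1) atTop (𝓝 p₀.2.1) :=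
      ((continuous_fst.comp continuous_snd).tendsto p₀).comp htp
    have htp3 : Tendsto (fun N => (p N).2.2) atTop (𝓝 p₀.2.2) :=
      ((continuous_snd.comp continuous_snd).tendsto p₀).comp htp
    have k0 := (hKmem p₀).1 hp₀
    have hsQ := (hcrit p₀ hp₀).1
    have hlo := hlow p₀ hp₀
    rw [hsQ] at hlo
    have := seq3 hLS hρR hw hwR hw16 hr hg hs hE hG hru hgu hsu hrr hQ1 hQ2 hκ hF
      (ψ := fun N => (p N).1) (ψ' := fun N => (p N).2.1) (χ := fun N => (p N).2.2)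
      (φ := p₀.1) (φ' := p₀.2.1) (η := p₀.2.2)
      (z₀ := dl p₀.1 p₀.2.1 p₀.2.2)
      (fun N => hKR _ ((hKmem _).1 (hp N)).1.1 ((hKmem _).1 (hp N)).1.2)
      (fun N => hKR _ ((hKmem _).1 (hp N)).2.1.1 ((hKmem _).1 (hp N)).2.1.2)
      (fun N => hKR _ ((hKmem _).1 (hp N)).2.2.1 ((hKmem _).1 (hp N)).2.2.2)
      (hKR _ k0.1.1 k0.1.2) (hKR _ k0.2.1.1 k0.2.1.2) (hKR _ k0.2.2.1 k0.2.2.2)
      (fun N => ⟨((hKmem _).1 (hp N)).1.1.trans (by linarith),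
        ((hKmem _).1 (hp N)).1.2.trans ht2⟩)
      (fun N => ⟨((hKmem _).1 (hp N)).2.1.1.trans (by linarith),
        ((hKmem _).1 (hp N)).2.1.2.trans ht2⟩)
      (fun N => ⟨((hKmem _).1 (hp N)).2.2.1.trans (by linarith),
        ((hKmem _).1 (hp N)).2.2.2.trans ht2⟩)
      htp1 htp2 htp3 (hdl p₀ hp₀) (hcrit p₀ hp₀).2 (by linarith) (by linarith)
    rw [hsQ]
    exact this)
  refine ⟨t, ht, by linarith, fun ε hε => ?_⟩
  have hmin : 0 < min ε (κ / 2) := lt_min hε (by positivity)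
  filter_upwards [hmain _ hmin, eventually_gt_atTop 0] with N h1 h2 ψ hψ ψ' hψ' χ hχ
  have hN : (0 : ℝ) < N := by exact_mod_cast h2
  have hpK : (ψ, ψ', χ) ∈ K := (hKmem _).2 ⟨⟨hψ.1.le, hψ.2.le⟩, ⟨hψ'.1.le, hψ'.2.le⟩,
    hχ.1.le, hχ.2.le⟩
  have h3 := h1 _ hpK
  have h4 := hlow _ hpK
  simp only at h3 h4
  constructor
  · intro hker
    rw [hker, norm_zero, Real.log_zero, zero_div, zero_sub, abs_neg] at h3
    have h5 := (le_abs_self _).trans (h3.trans (min_le_right _ _))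
    linarith
  · have h5 := h3.trans (min_le_left _ _)
    have e1 : Real.log ‖kh N ψ ψ' χ‖ - N * (s ψ ψ' χ).re =
        N * (Real.log ‖kh N ψ ψ' χ‖ / N - (s ψ ψ' χ).re) := by
      field_simp
    rw [e1, abs_mul, abs_of_pos hN, mul_comm]
    gcongr

end Pool.Agent.Y967.CB.MW
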