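import Pool.Agent.Y472.A.Defs2

/-!
# Closed 3-braids: algebra for the exact formula at the root of unity
-/

set_option autoImplicit false

namespace Pool.Agent.Y967.CB

open Finset Filter Topology Pool.Agent.Y472 Pool.Agent.H550R3.Jones Pool.Agent.W711.HT
open scoped Real

section ring
variable {R : Type*} [Ring R] {ι : Type*}

theorem projP (P : R) (A B : ι → R) (hA : ∀ x, P * A x * P = P * A x)
    (hB : ∀ x, P * B x * P = P * B x) (ls : List ι) :
    P * (ls.map fun x => A x * P * B x * P).prod = P * (ls.map fun x => A x * B x).prod := by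
  induction ls with
  | nil => rfl
  | cons x l ih =>
    simp only [List.map_cons, List.prod_cons]
    have h2 : P * (A x * B x) = P * (A x * B x) * P := by
      calc P * (A x * B x) = (P * A x) * B x := by simp only [mul_assoc]
        _ = (P * A x * P) * B x := by rw [hA]
        _ = (P * A x) * (P * B x) := by simp only [mul_assoc]
        _ = (P * A x) * (P * B x * P) := by rw [hB]
        _ = (P * A x * P) * B x * P := by simp only [mul_assoc]
        _ = (P * A x) * B x * P := by rw [hA]
        _ = P * (A x * B x) * P := by simp only [mul_assoc]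
    have h1 : P * (A x * P * B x * P) = P * (A x * B x) * P := by
      calc P * (A x * P * B x * P) = (P * A x * P) * B x * P := by simp only [mul_assoc]
        _ = (P * A x) * B x * P := by rw [hA]
        _ = P * (A x * B x) * P := by simp only [mul_assoc]
    calc P * ((A x * P * B x * P) * (l.map fun x => A x * P * B x * P).prod)
        = (P * (A x * P * B x * P)) * (l.map fun x => A x * P * B x * P).prod := by
          simp only [mul_assoc]
      _ = P * (A x * B x) * (P * (l.map fun x => A x * P * B x * P).prod) := by
          rw [h1]; simp only [mul_assoc]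
      _ = (P * (A x * B x) * P) * (l.map fun x => A x * B x).prod := by
          rw [ih]; simp only [mul_assoc]
      _ = P * ((A x * B x) * (l.map fun x => A x * B x).prod) := by
          rw [← h2]; simp only [mul_assoc]

theorem projR (Q : R) (A B : ι → R) (hA : ∀ x, Q * A x * Q = A x * Q)
    (hB : ∀ x, Q * B x * Q = B x * Q) (hQ : Q * Q = Q) (ls : List ι) :
    Q * (ls.map fun x => A x * B x).prod * Q = (ls.map fun x => A x * B x).prod * Q := by
  induction ls with
  | nil => simp [hQ]
  | cons x l ih =>
    simp only [List.map_cons, List.prod_cons]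
    have h2 : Q * (A x * B x) * Q = A x * B x * Q := by
      calc Q * (A x * B x) * Q = Q * A x * (B x * Q) := by simp only [mul_assoc]
        _ = Q * A x * (Q * B x * Q) := by rw [hB]
        _ = (Q * A x * Q) * (B x * Q) := by simp only [mul_assoc]
        _ = A x * (Q * B x * Q) := by rw [hA]; simp only [mul_assoc]
        _ = A x * B x * Q := by rw [hB]; simp only [mul_assoc]
    calc Q * (A x * B x * (l.map fun x => A x * B x).prod) * Q
        = Q * (A x * B x) * ((l.map fun x => A x * B x).prod * Q) := by simp only [mul_assoc]
      _ = (Q * (A x * B x) * Q) * ((l.map fun x => A x * B x).prod * Q) := by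
          rw [← ih]; simp only [mul_assoc]
          rw [← mul_assoc Q Q, hQ]
      _ = A x * B x * (Q * (l.map fun x => A x * B x).prod * Q) := by
          rw [h2]; simp only [mul_assoc]
      _ = A x * B x * (l.map fun x => A x * B x).prod * Q := by
          rw [ih]; simp only [mul_assoc]

theorem projQ (Q : R) (A B : ι → R) (hA : ∀ x, Q * A x * Q = A x * Q)
    (hB : ∀ x, Q * B x * Q = B x * Q) (hQ : Q * Q = Q) (ls : List ι) :
    Q * (ls.map fun x => A x * Q * B x * Q).prod = (ls.map fun x => A x * B x).prod * Q := by
  induction ls with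
  | nil => simp
  | cons x l ih =>
    simp only [List.map_cons, List.prod_cons]
    have h3 := projR Q A B hA hB hQ l
    calc Q * ((A x * Q * B x * Q) * (l.map fun x => A x * Q * B x * Q).prod)
        = (Q * A x * Q) * B x * (Q * (l.map fun x => A x * Q * B x * Q).prod) := by
          simp only [mul_assoc]
      _ = A x * Q * B x * ((l.map fun x => A x * B x).prod * Q) := by rw [ih, hA]
      _ = A x * Q * B x * (Q * (l.map fun x => A x * B x).prod * Q) := by rw [h3]
      _ = A x * (Q * B x * Q) * ((l.map fun x => A x * B x).prod * Q) := by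
          simp only [mul_assoc]
      _ = A x * B x * (Q * (l.map fun x => A x * B x).prod * Q) := by
          rw [hB]; simp only [mul_assoc]
      _ = (A x * B x * (l.map fun x => A x * B x).prod) * Q := by
          rw [h3]; simp only [mul_assoc]

end ring

/-- splitting of the trace for two complementary projections -/
theorem trace_split {n : Type*} [Fintype n] [DecidableEq n] {ι : Type*}
    (P Q : Matrix n n ℂ) (hPQ : P + Q = 1) (A B : ι → Matrix n n ℂ) (hQ : Q * Q = Q)
    (hA : ∀ x, P * A x * Q = 0) (hB : ∀ x, P * B x * Q = 0) (ls : List ι) :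
    (P * (ls.map fun x => A x * P * B x * P).prod).trace =
      ((ls.map fun x => A x * B x).prod).trace -
        (Q * (ls.map fun x => A x * Q * B x * Q).prod).trace := by
  have hPe : P = 1 - Q := eq_sub_of_add_eq hPQ
  have e1 : ∀ X : Matrix n n ℂ, P * X * Q = 0 → P * X * P = P * X := by
    intro X hX
    have : P * X * P = P * X * (1 - Q) := by rw [← hPe]
    rw [this, mul_sub, hX, mul_one, sub_zero]
  have e2 : ∀ X : Matrix n n ℂ, P * X * Q = 0 → Q * X * Q = X * Q := by
    intro X hX
    have : P * X * Q = X * Q - Q * X * Q := by rw [hPe]; noncomm_ring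
    rw [this] at hX
    exact (sub_eq_zero.mp hX).symm
  rw [projP P A B (fun x => e1 _ (hA x)) (fun x => e1 _ (hB x)) ls,
    projQ Q A B (fun x => e2 _ (hA x)) (fun x => e2 _ (hB x)) hQ ls,
    Matrix.trace_mul_comm _ Q, hPe, sub_mul, one_mul, Matrix.trace_sub]

/-- scalars in a product -/
theorem smul_list {n : Type*} [Fintype n] [DecidableEq n] {ι : Type*} (c : ι → ℂ)
    (M : ι → Matrix n n ℂ) (ls : List ι) :
    (ls.map fun x => c x • M x).prod = (ls.map c).prod • (ls.map M).prod := by
  induction ls with
  | nil => simp
  | cons x l ih =>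
    simp only [List.map_cons, List.prod_cons]
    rw [ih, smul_mul_smul_comm]

theorem norm_list {ι : Type*} (c : ι → ℂ) (hc : ∀ x, ‖c x‖ = 1) (ls : List ι) :
    ‖(ls.map c).prod‖ = 1 := by
  induction ls with
  | nil => simp
  | cons x l ih =>
    simp only [List.map_cons, List.prod_cons]
    rw [norm_mul, ih, hc, one_mul]

/-- differentiability of a product of matrices -/
theorem diff_list {n : Type*} [Fintype n] [DecidableEq n] {ι E : Type*} [NormedAddCommGroup E]
    [NormedSpace ℂ E] (M : E → ι → Matrix n n ℂ) (x₀ : E)
    (hM : ∀ q i j, DifferentiableAt ℂ (fun x => M x q i j) x₀) (ls : List ι) :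
    ∀ i j, DifferentiableAt ℂ (fun x => (ls.map (M x)).prod i j) x₀ := by
  induction ls with
  | nil =>
    intro i j
    simp only [List.map_nil, List.prod_nil]
    exact differentiableAt_const _
  | cons y l ih =>
    intro i j
    simp only [List.map_cons, List.prod_cons, Matrix.mul_apply]
    exact DifferentiableAt.fun_sum fun k _ => (hM y i k).mul (ih k j)

/-- differentiability of a product of two matrices -/
theorem diff_mul {n : Type*} [Fintype n] {E : Type*} [NormedAddCommGroup E]
    [NormedSpace ℂ E] (M M' : E → Matrix n n ℂ) (x₀ : E)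
    (hM : ∀ i j, DifferentiableAt ℂ (fun x => M x i j) x₀)
    (hM' : ∀ i j, DifferentiableAt ℂ (fun x => M' x i j) x₀) :
    ∀ i j, DifferentiableAt ℂ (fun x => (M x * M' x) i j) x₀ := by
  intro i j
  simp only [Matrix.mul_apply]
  exact DifferentiableAt.fun_sum fun k _ => (hM i k).mul (hM' k j)

theorem diff_trace {n : Type*} [Fintype n] {E : Type*} [NormedAddCommGroup E]
    [NormedSpace ℂ E] (M : E → Matrix n n ℂ) (x₀ : E)
    (hM : ∀ i j, DifferentiableAt ℂ (fun x => M x i j) x₀) :
    DifferentiableAt ℂ (fun x => (M x).trace) x₀ := by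
  simp only [Matrix.trace, Matrix.diag_apply]
  exact DifferentiableAt.fun_sum fun k _ => hM k k

end Pool.Agent.Y967.CB
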