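import Pool.Agent.Y472.A.Defs2

/-!
# Closed 3-braids: the entries at `l = -exp ε`
-/

set_option autoImplicit false

namespace Pool.Agent.Y967.CB

open Finset Filter Topology Pool.Agent.Y472 Pool.Agent.H550R3.Jones Pool.Agent.W711.HT
open scoped Real

/-- the super-diagonal entries at `l = -exp ε` -/
noncomputable def PH (w ε χ : ℂ) (t : ℕ) : ℂ :=
  (w ^ t - (w ^ t)⁻¹) * ((Complex.exp ε)⁻¹ * w ^ t - Complex.exp ε * (w ^ t)⁻¹) *
    (Complex.exp ε ^ 3 * ((w ^ t) ^ 2)⁻¹ + (Complex.exp ε ^ 3)⁻¹ * (w ^ t) ^ 2 -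
      2 * Complex.cos χ)

/-- the variable `χ` -/
noncomputable def chi (N p : ℕ) (ε : ℂ) : ℂ := 2 * π * p / N - 3 * Complex.I * ε

theorem vN_ne (N : ℕ) : vN N ≠ 0 := Complex.exp_ne_zero _

theorem vN_pow (N : ℕ) (hN : 2 ≤ N) : vN N ^ N = -1 := by
  rw [vN, ← Complex.exp_nat_mul]
  have : (N : ℂ) ≠ 0 := by
    have : N ≠ 0 := by omega
    exact_mod_cast this
  rw [show (N : ℂ) * (π * Complex.I / N) = π * Complex.I by field_simp]
  exact Complex.exp_pi_mul_I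

/-- `e^{iχ} = e^{3ε} w^{2p}` -/
theorem exp_chi (N p : ℕ) (hN : 2 ≤ N) (ε : ℂ) :
    Complex.exp (chi N p ε * Complex.I) = Complex.exp ε ^ 3 * (vN N ^ p) ^ 2 := by
  have : (N : ℂ) ≠ 0 := by
    have : N ≠ 0 := by omega
    exact_mod_cast this
  rw [vN, ← Complex.exp_nat_mul, ← Complex.exp_nat_mul, ← Complex.exp_nat_mul, ← Complex.exp_add]
  congr 1
  rw [chi]
  push_cast
  have hI : Complex.I ^ 2 = -1 := Complex.I_sq
  field_simp
  linear_combination (-3 * (N : ℂ) * ε) * hI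

theorem two_cos_chi (N p : ℕ) (hN : 2 ≤ N) (ε : ℂ) :
    2 * Complex.cos (chi N p ε) = Complex.exp ε ^ 3 * (vN N ^ p) ^ 2 +
      (Complex.exp ε ^ 3 * (vN N ^ p) ^ 2)⁻¹ := by
  rw [← exp_chi N p hN, ← Complex.exp_neg, Complex.cos]
  ring_nf

theorem two_sin_chi (N p : ℕ) (hN : 2 ≤ N) (ε : ℂ) :
    2 * Complex.I * Complex.sin (chi N p ε) = Complex.exp ε ^ 3 * (vN N ^ p) ^ 2 -
      (Complex.exp ε ^ 3 * (vN N ^ p) ^ 2)⁻¹ := by
  rw [← exp_chi N p hN, ← Complex.exp_neg, Complex.sin]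
  have hI : Complex.I ^ 2 = -1 := Complex.I_sq
  ring_nf
  rw [hI]
  ring

theorem ph_eq (N D p t : ℕ) (hN : 2 ≤ N) (hD : D + 1 + p = N) (ε : ℂ) :
    ph (vN N) (-Complex.exp ε) D t = PH (vN N) ε (chi N p ε) t := by
  have hw : vN N ≠ 0 := vN_ne N
  have hE : Complex.exp ε ≠ 0 := Complex.exp_ne_zero _
  rw [ph, PH, two_cos_chi N p hN]
  have e1 : vN N ^ ((D : ℤ) + 1 - t) = -(vN N ^ p * vN N ^ t)⁻¹ := by
    have : (D : ℤ) + 1 - t = N - p - t := by omega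
    rw [this, zpow_sub₀ hw, zpow_sub₀ hw, zpow_natCast, zpow_natCast, zpow_natCast, vN_pow N hN,
      mul_inv]
    ring
  have e2 : vN N ^ (-(t : ℤ)) = (vN N ^ t)⁻¹ := by rw [zpow_neg, zpow_natCast]
  have e3 : vN N ^ (-1 - (D : ℤ) - t) = -(vN N ^ p * (vN N ^ t)⁻¹) := by
    have : -1 - (D : ℤ) - t = p - N - t := by omega
    rw [this, zpow_sub₀ hw, zpow_sub₀ hw, zpow_natCast, zpow_natCast, zpow_natCast, vN_pow N hN]
    ring
  rw [qi, qi, lb, e1, e2, e3, zpow_natCast]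
  have ha : vN N ^ t ≠ 0 := pow_ne_zero _ hw
  have hb : vN N ^ p ≠ 0 := pow_ne_zero _ hw
  generalize vN N ^ t = a at *
  generalize vN N ^ p = b at *
  generalize Complex.exp ε = E at *
  simp only [cb]
  field_simp
  ring

theorem ph_eq' (N D p t : ℕ) (hN : 2 ≤ N) (hD : D + 1 + p = N) (ε : ℂ) :
    ph (vN N) (-Complex.exp ε) (N + D) t = PH (vN N) ε (chi N p ε) t := by
  have hw : vN N ≠ 0 := vN_ne N
  have hE : Complex.exp ε ≠ 0 := Complex.exp_ne_zero _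
  rw [ph, PH, two_cos_chi N p hN]
  have e1 : vN N ^ (((N + D : ℕ) : ℤ) + 1 - t) = (vN N ^ p * vN N ^ t)⁻¹ := by
    have : ((N + D : ℕ) : ℤ) + 1 - t = N + N - p - t := by omega
    rw [this, zpow_sub₀ hw, zpow_sub₀ hw, zpow_add₀ hw, zpow_natCast, zpow_natCast, zpow_natCast,
      vN_pow N hN, mul_inv]
    ring
  have e2 : vN N ^ (-(t : ℤ)) = (vN N ^ t)⁻¹ := by rw [zpow_neg, zpow_natCast]
  have e3 : vN N ^ (-1 - ((N + D : ℕ) : ℤ) - t) = (vN N ^ p * (vN N ^ t)⁻¹) := by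
    have : -1 - ((N + D : ℕ) : ℤ) - t = p - N - N - t := by omega
    rw [this, zpow_sub₀ hw, zpow_sub₀ hw, zpow_sub₀ hw, zpow_natCast, zpow_natCast, zpow_natCast,
      vN_pow N hN]
    ring
  rw [qi, qi, lb, e1, e2, e3, zpow_natCast]
  have ha : vN N ^ t ≠ 0 := pow_ne_zero _ hw
  have hb : vN N ^ p ≠ 0 := pow_ne_zero _ hw
  generalize vN N ^ t = a at *
  generalize vN N ^ p = b at *
  generalize Complex.exp ε = E at *
  simp only [cb]
  field_simp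
  ring

theorem cb_eq (N D p : ℕ) (hN : 2 ≤ N) (hD : D + 1 + p = N) (ε : ℂ) :
    cb ((-Complex.exp ε) ^ 3 * vN N ^ (-2 - 2 * (D : ℤ))) =
      -(2 * Complex.I) * Complex.sin (chi N p ε) := by
  have hw : vN N ≠ 0 := vN_ne N
  have hE : Complex.exp ε ≠ 0 := Complex.exp_ne_zero _
  rw [neg_mul, two_sin_chi N p hN]
  have e3 : vN N ^ (-2 - 2 * (D : ℤ)) = (vN N ^ p) ^ 2 := by
    have : -2 - 2 * (D : ℤ) = p + p - N - N := by omega
    rw [this, zpow_sub₀ hw, zpow_sub₀ hw, zpow_add₀ hw, zpow_natCast, zpow_natCast, vN_pow N hN]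
    ring
  rw [e3]
  have hb : vN N ^ p ≠ 0 := pow_ne_zero _ hw
  generalize vN N ^ p = b at *
  generalize Complex.exp ε = E at *
  simp only [cb]
  field_simp
  ring

theorem cb_eq' (N D p : ℕ) (hN : 2 ≤ N) (hD : D + 1 + p = N) (ε : ℂ) :
    cb ((-Complex.exp ε) ^ 3 * vN N ^ (-2 - 2 * ((N + D : ℕ) : ℤ))) =
      -(2 * Complex.I) * Complex.sin (chi N p ε) := by
  have hw : vN N ≠ 0 := vN_ne N
  have hE : Complex.exp ε ≠ 0 := Complex.exp_ne_zero _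
  rw [neg_mul, two_sin_chi N p hN]
  have e3 : vN N ^ (-2 - 2 * ((N + D : ℕ) : ℤ)) = (vN N ^ p) ^ 2 := by
    have : -2 - 2 * ((N + D : ℕ) : ℤ) = p + p - N - N - N - N := by omega
    rw [this, zpow_sub₀ hw, zpow_sub₀ hw, zpow_sub₀ hw, zpow_sub₀ hw, zpow_add₀ hw, zpow_natCast,
      zpow_natCast, vN_pow N hN]
    ring
  rw [e3]
  have hb : vN N ^ p ≠ 0 := pow_ne_zero _ hw
  generalize vN N ^ p = b at *
  generalize Complex.exp ε = E at *
  simp only [cb]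
  field_simp
  ring

/-- the common factor -/
noncomputable def kap (N : ℕ) (m : ℤ) (ε : ℂ) : ℂ :=
  (vN N ^ 4 * Complex.exp (-6 * N * ε + 9 * Complex.I * N * ε ^ 2 / (2 * π))) ^ m

theorem ta_eq (N D p : ℕ) (hN : 2 ≤ N) (hD : D + 1 + p = N) (m : ℤ) (ε : ℂ) :
    ta (vN N) (-Complex.exp ε) D ^ m = kap N m ε * Ea (2 * m) N (chi N p ε) := by
  have hN0 : (N : ℂ) ≠ 0 := by
    have : N ≠ 0 := by omega
    exact_mod_cast this
  have hpi : (π : ℂ) ≠ 0 := by exact_mod_cast Real.pi_ne_zero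
  have hE : Ea (2 * m) N (chi N p ε) = Complex.exp (Complex.I * 2 * N * chi N p ε ^ 2 / (4 * π)) ^ m := by
    rw [Ea, ← Complex.exp_int_mul]
    congr 1
    push_cast
    ring
  rw [hE, kap, ← mul_zpow]
  congr 1
  rw [ta]
  have hev : Even (-6 * (1 + (D : ℤ))) := ⟨-3 * (1 + (D : ℤ)), by ring⟩
  rw [hev.neg_zpow, ← Complex.exp_int_mul, vN, ← Complex.exp_nat_mul, ← Complex.exp_nat_mul,
    ← Complex.exp_add, ← Complex.exp_add, ← Complex.exp_add, Complex.exp_eq_exp_iff_exists_int]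
  refine ⟨(N : ℤ) - 2 * p, ?_⟩
  have hDc : (D : ℂ) = N - 1 - p := by
    have : ((D + 1 + p : ℕ) : ℂ) = N := by rw [hD]
    push_cast at this
    linear_combination this
  push_cast
  rw [hDc, chi]
  have hI : Complex.I ^ 2 = -1 := Complex.I_sq
  have hI3 : Complex.I ^ 3 = -Complex.I := by rw [pow_succ, hI]; ring
  field_simp
  ring_nf
  simp only [hI, hI3]
  ring

theorem ta_eq' (N D p : ℕ) (hN : 2 ≤ N) (hD : D + 1 + p = N) (m : ℤ) (ε : ℂ) :
    ta (vN N) (-Complex.exp ε) (N + D) ^ m = kap N m ε * Ea (2 * m) N (chi N p ε) *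
      Complex.exp (-6 * m * N * ε) := by
  have h2 : ta (vN N) (-Complex.exp ε) (N + D) =
      ta (vN N) (-Complex.exp ε) D * Complex.exp (-6 * N * ε) := by
    rw [ta, ta]
    have hev : Even (-6 * (1 + (D : ℤ))) := ⟨-3 * (1 + (D : ℤ)), by ring⟩
    have hev' : Even (-6 * (1 + ((N + D : ℕ) : ℤ))) := ⟨-3 * (1 + ((N + D : ℕ) : ℤ)), by ring⟩
    rw [hev.neg_zpow, hev'.neg_zpow, ← Complex.exp_int_mul, ← Complex.exp_int_mul]
    have e1 : 2 * (1 + (N + D)) ^ 2 + 4 = (2 * (1 + D) ^ 2 + 4) + N * (2 * (2 * (1 + D) + N)) := by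
      ring
    rw [e1, pow_add, pow_mul, vN_pow N hN, pow_mul (-1 : ℂ) 2]
    have e2 : Complex.exp (((-6 * (1 + ((N + D : ℕ) : ℤ)) : ℤ) : ℂ) * ε) =
        Complex.exp (((-6 * (1 + (D : ℤ)) : ℤ) : ℂ) * ε) * Complex.exp (-6 * N * ε) := by
      rw [← Complex.exp_add]
      congr 1
      push_cast
      ring
    rw [e2]
    norm_num
    ring
  rw [h2, mul_zpow, ta_eq N D p hN hD, ← Complex.exp_int_mul]
  congr 2
  ring

theorem PH_zero (N t : ℕ) (hN : 2 ≤ N) (χ : ℂ) : PH (vN N) 0 χ t = Ph N χ t := by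
  have hN0 : (N : ℂ) ≠ 0 := by
    have : N ≠ 0 := by omega
    exact_mod_cast this
  have hw : vN N ≠ 0 := vN_ne N
  have ha : vN N ^ t ≠ 0 := pow_ne_zero _ hw
  have hc : (2 : ℂ) * (Real.cos (2 * π * t / N) : ℂ) = (vN N ^ t) ^ 2 + ((vN N ^ t) ^ 2)⁻¹ := by
    rw [Complex.ofReal_cos, Complex.cos]
    have e : Complex.exp (((2 * π * t / N : ℝ) : ℂ) * Complex.I) = (vN N ^ t) ^ 2 := by
      rw [vN, ← Complex.exp_nat_mul, ← Complex.exp_nat_mul]
      congr 1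
      push_cast
      ring
    have e' : Complex.exp (-((2 * π * t / N : ℝ) : ℂ) * Complex.I) = ((vN N ^ t) ^ 2)⁻¹ := by
      rw [← e, ← Complex.exp_neg]
      congr 1
      ring
    rw [e, e']
    ring
  rw [PH, Ph, hc, Complex.exp_zero]
  generalize vN N ^ t = a at *
  field_simp
  ring

end Pool.Agent.Y967.CB
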