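import Pool.Agent.Y967.CB.Alg
import Pool.Agent.Y967.CB.Idn

/-!
# Closed 3-braids: block structure of the trace
-/

set_option autoImplicit false

namespace Pool.Agent.Y967.CB

open Finset Filter Topology Pool.Agent.Y472 Pool.Agent.H550R3.Jones Pool.Agent.W711.HT
open scoped Real

theorem diag_mul_diag_apply {n : Type*} [Fintype n] [DecidableEq n] (d e : n → ℂ)
    (A : Matrix n n ℂ) (i j : n) :
    (Matrix.diagonal d * A * Matrix.diagonal e) i j = d i * A i j * e j := by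
  rw [Matrix.mul_diagonal, Matrix.diagonal_mul]

theorem pI_add (N D p : ℕ) (hD : D + 1 + p = N) : pI N D + pH N p = 1 := by
  rw [pI, pH, Matrix.diagonal_add, ← Matrix.diagonal_one]
  congr 1
  funext i
  have hi := i.2
  by_cases h : (i : ℕ) ≤ D
  · rw [if_pos ⟨h, by omega⟩, if_neg (by omega), add_zero]
  · rw [if_neg (by omega), if_pos (by omega), zero_add]

theorem pI_high (N D p : ℕ) (hD : D + 1 + p = N) : pI N (N + D) = pH N p := by
  rw [pI, pH]
  congr 1
  funext i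
  have hi := i.2
  by_cases h : (i : ℕ) ≤ D
  · rw [if_neg (by omega), if_neg (by omega)]
  · rw [if_pos (by omega), if_pos (by omega)]

theorem pH_sq (N p : ℕ) : pH N p * pH N p = pH N p := by
  rw [pH, Matrix.diagonal_mul_diagonal]
  congr 1
  funext i
  split_ifs <;> simp

theorem ph_zero (w l : ℂ) (D : ℕ) : ph w l D (D + 1) = 0 := by
  rw [ph, qi]
  have : ((D : ℤ) + 1 - ((D + 1 : ℕ) : ℤ)) = 0 := by push_cast; ring
  rw [this, zpow_zero, cb]
  simp

theorem MA_block (N D p : ℕ) (hD : D + 1 + p = N) (w l : ℂ) (a : ℤ) :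
    pI N D * MA N w l a * pH N p = 0 := by
  ext i j
  rw [pI, pH, diag_mul_diag_apply]
  show _ * (if j ≤ i then _ else _) * _ = (0 : ℂ)
  by_cases h : j ≤ i
  · have h' : (j : ℕ) ≤ i := h
    by_cases h2 : (i : ℕ) ≤ D
    · rw [if_neg (c := N ≤ (j : ℕ) + p) (by omega), mul_zero]
    · rw [if_neg (c := (i : ℕ) ≤ D ∧ D < (i : ℕ) + N) (by omega), zero_mul, zero_mul]
  · rw [if_neg h, mul_zero, zero_mul]

theorem MB_block (N D p : ℕ) (hD : D + 1 + p = N) (w l : ℂ) (b : ℤ) :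
    pI N D * MB N w l D b * pH N p = 0 := by
  ext i j
  rw [pI, pH, diag_mul_diag_apply]
  show _ * (if i ≤ j then (∏ t ∈ Ioc (i : ℕ) j, ph w l D t) * _ else _) * _ = (0 : ℂ)
  by_cases h2 : (i : ℕ) ≤ D
  · by_cases h3 : N ≤ (j : ℕ) + p
    · have : ∏ t ∈ Ioc (i : ℕ) j, ph w l D t = 0 :=
        Finset.prod_eq_zero (Finset.mem_Ioc.mpr ⟨by omega, by omega⟩) (ph_zero w l D)
      rw [this, zero_mul]
      simp
    · rw [if_neg h3, mul_zero]
  · rw [if_neg (c := (i : ℕ) ≤ D ∧ D < (i : ℕ) + N) (by omega), zero_mul, zero_mul]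

/-- the full trace and the trace on the high indices -/
theorem trI_low (N D p : ℕ) (hD : D + 1 + p = N) (w l : ℂ) (ls : List (ℤ × ℤ)) :
    trI N w l ls D = ((ls.map fun x => MA N w l x.1 * MB N w l D x.2).prod).trace -
      (pH N p * (ls.map fun x => MA N w l x.1 * pH N p * MB N w l D x.2 * pH N p).prod).trace :=
  trace_split (pI N D) (pH N p) (pI_add N D p hD) (fun x : ℤ × ℤ => MA N w l x.1)
    (fun x : ℤ × ℤ => MB N w l D x.2) (pH_sq N p) (fun x => MA_block N D p hD w l x.1)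
    (fun x => MB_block N D p hD w l x.2) ls

/-! ### The continuation -/

/-- the matrix of `σ_1^a`, continued -/
noncomputable def MAe (N : ℕ) (G : ℤ → ℕ → ℕ → ℂ → ℂ) (ε : ℂ) (a : ℤ) :
    Matrix (Fin N) (Fin N) ℂ :=
  fun i j => if j ≤ i then G a j i ε else 0

/-- the matrix of `σ_2^b`, continued -/
noncomputable def MBe (N : ℕ) (G : ℤ → ℕ → ℕ → ℂ → ℂ) (ε χ : ℂ) (b : ℤ) :
    Matrix (Fin N) (Fin N) ℂ :=
  fun i j => if i ≤ j then (∏ t ∈ Ioc (i : ℕ) j, PH (vN N) ε χ t) * G b i j ε else 0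

/-- the full trace -/
noncomputable def Te (N : ℕ) (G : ℤ → ℕ → ℕ → ℂ → ℂ) (ls : List (ℤ × ℤ)) (ε χ : ℂ) : ℂ :=
  ((ls.map fun x => MAe N G ε x.1 * MBe N G ε χ x.2).prod).trace

/-- the trace on the high indices -/
noncomputable def He (N : ℕ) (G : ℤ → ℕ → ℕ → ℂ → ℂ) (ls : List (ℤ × ℤ)) (p : ℕ) (ε χ : ℂ) : ℂ :=
  (pH N p * (ls.map fun x => MAe N G ε x.1 * pH N p * MBe N G ε χ x.2 * pH N p).prod).trace

theorem He_zero (N : ℕ) (G : ℤ → ℕ → ℕ → ℂ → ℂ) (ls : List (ℤ × ℤ)) (ε χ : ℂ) :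
    He N G ls 0 ε χ = 0 := by
  have : pH N 0 = 0 := by
    rw [pH, ← Matrix.diagonal_zero]
    congr 1
    funext i
    have := i.2
    rw [if_neg (by omega)]
  rw [He, this, Matrix.zero_mul, Matrix.trace_zero]

theorem map_congr' {ι β : Type*} (f g : ι → β) (ls : List ι) (h : ∀ x ∈ ls, f x = g x) :
    ls.map f = ls.map g := List.map_congr_left h

/-- the generic sum in terms of the continuation -/
theorem sum_eq (N : ℕ) (hN : 2 ≤ N) (G : ℤ → ℕ → ℕ → ℂ → ℂ) (ls : List (ℤ × ℤ)) (m : ℤ) (ε : ℂ)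
    (hG : ∀ x ∈ ls, ∀ i j : ℕ, i ≤ j → j < N → G x.1 i j ε = gd (vN N) (-Complex.exp ε) x.1 i j ∧
      G x.2 i j ε = gd (vN N) (-Complex.exp ε) x.2 i j) :
    ∑ D ∈ range (2 * N - 1), cb ((-Complex.exp ε) ^ 3 * vN N ^ (-2 - 2 * (D : ℤ))) *
        ta (vN N) (-Complex.exp ε) D ^ m * trI N (vN N) (-Complex.exp ε) ls D =
      -(2 * Complex.I) * (kap N m ε * ∑ p ∈ range N, (wE N m (chi N p ε) * Te N G ls ε (chi N p ε) +
        wE N m (chi N p ε) * He N G ls p ε (chi N p ε) * (Complex.exp (-6 * m * N * ε) - 1))) := by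
  have hMA : ∀ x ∈ ls, MA N (vN N) (-Complex.exp ε) x.1 = MAe N G ε x.1 := by
    intro x hx
    funext i j
    show (if j ≤ i then gd (vN N) (-Complex.exp ε) x.1 j i else 0) = if j ≤ i then _ else 0
    by_cases h : j ≤ i
    · rw [if_pos h, if_pos h, (hG x hx j i h i.2).1]
    · rw [if_neg h, if_neg h]
  have hMB : ∀ D p : ℕ, D + 1 + p = N → ∀ x ∈ ls,
      MB N (vN N) (-Complex.exp ε) D x.2 = MBe N G ε (chi N p ε) x.2 := by
    intro D p hD x hx
    funext i j
    show (if i ≤ j then _ else 0) = if i ≤ j then _ else 0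
    by_cases h : i ≤ j
    · rw [if_pos h, if_pos h, (hG x hx i j h j.2).2]
      congr 1
      exact Finset.prod_congr rfl fun t _ => ph_eq N D p t hN hD ε
    · rw [if_neg h, if_neg h]
  have hMB' : ∀ D p : ℕ, D + 1 + p = N → ∀ x ∈ ls,
      MB N (vN N) (-Complex.exp ε) (N + D) x.2 = MBe N G ε (chi N p ε) x.2 := by
    intro D p hD x hx
    funext i j
    show (if i ≤ j then _ else 0) = if i ≤ j then _ else 0
    by_cases h : i ≤ j
    · rw [if_pos h, if_pos h, (hG x hx i j h j.2).2]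
      congr 1
      exact Finset.prod_congr rfl fun t _ => ph_eq' N D p t hN hD ε
    · rw [if_neg h, if_neg h]
  have hlow : ∀ D p : ℕ, D + 1 + p = N → trI N (vN N) (-Complex.exp ε) ls D =
      Te N G ls ε (chi N p ε) - He N G ls p ε (chi N p ε) := by
    intro D p hD
    have k1 : (ls.map fun x => MA N (vN N) (-Complex.exp ε) x.1 *
        MB N (vN N) (-Complex.exp ε) D x.2) =
        ls.map fun x => MAe N G ε x.1 * MBe N G ε (chi N p ε) x.2 :=
      List.map_congr_left fun x hx => by rw [hMA x hx, hMB D p hD x hx]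
    have k2 : (ls.map fun x => MA N (vN N) (-Complex.exp ε) x.1 * pH N p *
        MB N (vN N) (-Complex.exp ε) D x.2 * pH N p) =
        ls.map fun x => MAe N G ε x.1 * pH N p * MBe N G ε (chi N p ε) x.2 * pH N p :=
      List.map_congr_left fun x hx => by rw [hMA x hx, hMB D p hD x hx]
    rw [trI_low N D p hD, Te, He, k1, k2]
  have hhigh : ∀ D p : ℕ, D + 1 + p = N → trI N (vN N) (-Complex.exp ε) ls (N + D) =
      He N G ls p ε (chi N p ε) := by
    intro D p hD
    have k2 : (ls.map fun x => MA N (vN N) (-Complex.exp ε) x.1 * pH N p *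
        MB N (vN N) (-Complex.exp ε) (N + D) x.2 * pH N p) =
        ls.map fun x => MAe N G ε x.1 * pH N p * MBe N G ε (chi N p ε) x.2 * pH N p :=
      List.map_congr_left fun x hx => by rw [hMA x hx, hMB' D p hD x hx]
    rw [trI, He, pI_high N D p hD, k2]
  have e1 : 2 * N - 1 = N + (N - 1) := by omega
  rw [e1, Finset.sum_range_add]
  have hlow' : ∑ D ∈ range N, cb ((-Complex.exp ε) ^ 3 * vN N ^ (-2 - 2 * (D : ℤ))) *
        ta (vN N) (-Complex.exp ε) D ^ m * trI N (vN N) (-Complex.exp ε) ls D =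
      ∑ p ∈ range N, -(2 * Complex.I) * Complex.sin (chi N p ε) *
        (kap N m ε * Ea (2 * m) N (chi N p ε)) *
          (Te N G ls ε (chi N p ε) - He N G ls p ε (chi N p ε)) := by
    rw [← Finset.sum_range_reflect]
    refine Finset.sum_congr rfl fun p hp => ?_
    have hp' := Finset.mem_range.mp hp
    have hD : (N - 1 - p) + 1 + p = N := by omega
    rw [cb_eq N _ p hN hD, ta_eq N _ p hN hD, hlow _ p hD]
  have hhigh' : ∑ D ∈ range (N - 1), cb ((-Complex.exp ε) ^ 3 * vN N ^ (-2 - 2 * ((N + D : ℕ) : ℤ))) *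
        ta (vN N) (-Complex.exp ε) (N + D) ^ m * trI N (vN N) (-Complex.exp ε) ls (N + D) =
      ∑ p ∈ range N, -(2 * Complex.I) * Complex.sin (chi N p ε) *
        (kap N m ε * Ea (2 * m) N (chi N p ε) * Complex.exp (-6 * m * N * ε)) *
          He N G ls p ε (chi N p ε) := by
    have e2 : ∑ p ∈ range N, -(2 * Complex.I) * Complex.sin (chi N p ε) *
        (kap N m ε * Ea (2 * m) N (chi N p ε) * Complex.exp (-6 * m * N * ε)) *
          He N G ls p ε (chi N p ε) =
        ∑ p ∈ range (N - 1), -(2 * Complex.I) * Complex.sin (chi N (p + 1) ε) *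
        (kap N m ε * Ea (2 * m) N (chi N (p + 1) ε) * Complex.exp (-6 * m * N * ε)) *
          He N G ls (p + 1) ε (chi N (p + 1) ε) := by
      have : N = (N - 1) + 1 := by omega
      conv_lhs => rw [this, Finset.sum_range_succ']
      rw [← this, He_zero]
      simp
    rw [e2, ← Finset.sum_range_reflect]
    refine Finset.sum_congr rfl fun p hp => ?_
    have hp' := Finset.mem_range.mp hp
    have hD : (N - 1 - 1 - p) + 1 + (p + 1) = N := by omega
    rw [cb_eq' N _ (p + 1) hN hD, ta_eq' N _ (p + 1) hN hD, hhigh _ (p + 1) hD]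
  rw [hlow', hhigh', ← Finset.sum_add_distrib, Finset.mul_sum, Finset.mul_sum]
  refine Finset.sum_congr rfl fun p _ => ?_
  rw [wE]
  ring

end Pool.Agent.Y967.CB
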