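import Pool.Agent.Y967.CB.Blk

/-!
# Closed 3-braids: the exact formula at the root of unity (task EXF of project CB3)
-/

set_option autoImplicit false

namespace Pool.Agent.Y967.CB

open Finset Filter Topology Pool.Agent.Y472 Pool.Agent.H550R3.Jones Pool.Agent.W711.HT
open scoped Real

/-! ### Differentiability -/

theorem PH_diff (w : ℂ) (t : ℕ) (x : ℂ × ℂ) :
    DifferentiableAt ℂ (fun x : ℂ × ℂ => PH w x.1 x.2 t) x := by
  have h1 : DifferentiableAt ℂ (fun x : ℂ × ℂ => Complex.exp x.1) x := differentiableAt_fst.cexp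
  have h2 : DifferentiableAt ℂ (fun x : ℂ × ℂ => (Complex.exp x.1)⁻¹) x :=
    h1.fun_inv (Complex.exp_ne_zero _)
  have h3 : DifferentiableAt ℂ (fun x : ℂ × ℂ => Complex.exp x.1 ^ 3) x := h1.fun_pow 3
  have h4 : DifferentiableAt ℂ (fun x : ℂ × ℂ => (Complex.exp x.1 ^ 3)⁻¹) x :=
    h3.fun_inv (pow_ne_zero _ (Complex.exp_ne_zero _))
  have h5 : DifferentiableAt ℂ (fun x : ℂ × ℂ => Complex.cos x.2) x := differentiableAt_snd.ccos
  unfold PH
  exact (((h2.mul_const _).sub (h1.mul_const _)).const_mul _).mul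
    (((h3.mul_const _).add (h4.mul_const _)).sub (h5.const_mul 2))

theorem prod_diff {E : Type*} [NormedAddCommGroup E] [NormedSpace ℂ E] (s : Finset ℕ)
    (f : E → ℕ → ℂ) (x₀ : E) (h : ∀ t, DifferentiableAt ℂ (fun x => f x t) x₀) :
    DifferentiableAt ℂ (fun x => ∏ t ∈ s, f x t) x₀ := by
  classical
  induction s using Finset.induction_on with
  | empty => simp only [Finset.prod_empty]; exact differentiableAt_const _
  | insert a s ha ih =>
    simp only [Finset.prod_insert ha]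
    exact (h a).mul ih

theorem wE_diff (N : ℕ) (m : ℤ) (χ : ℂ) : DifferentiableAt ℂ (wE N m) χ := by
  have h : DifferentiableAt ℂ (fun χ : ℂ => Complex.sin χ *
      Complex.exp (Complex.I * ((2 * m : ℤ) : ℂ) * N * χ ^ 2 / (4 * π))) χ := by
    fun_prop
  exact h

variable {N : ℕ} {G : ℤ → ℕ → ℕ → ℂ → ℂ}

theorem MAe_diff (hG : ∀ a i j, i ≤ j → j < N → DifferentiableAt ℂ (G a i j) 0) (a : ℤ) (χ₀ : ℂ)
    (i j : Fin N) : DifferentiableAt ℂ (fun x : ℂ × ℂ => MAe N G x.1 a i j) (0, χ₀) := by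
  show DifferentiableAt ℂ (fun x : ℂ × ℂ => if j ≤ i then G a j i x.1 else 0) (0, χ₀)
  by_cases h : j ≤ i
  · simp only [if_pos h]
    have h1 : DifferentiableAt ℂ (G a j i) ((0, χ₀) : ℂ × ℂ).1 := hG a j i h i.2
    exact h1.comp (𝕜 := ℂ) ((0, χ₀) : ℂ × ℂ) differentiableAt_fst
  · simp only [if_neg h]
    exact differentiableAt_const _

theorem MBe_diff (hG : ∀ a i j, i ≤ j → j < N → DifferentiableAt ℂ (G a i j) 0) (a : ℤ) (χ₀ : ℂ)
    (i j : Fin N) : DifferentiableAt ℂ (fun x : ℂ × ℂ => MBe N G x.1 x.2 a i j) (0, χ₀) := by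
  show DifferentiableAt ℂ (fun x : ℂ × ℂ => if i ≤ j then
    (∏ t ∈ Ioc (i : ℕ) j, PH (vN N) x.1 x.2 t) * G a i j x.1 else 0) (0, χ₀)
  by_cases h : i ≤ j
  · simp only [if_pos h]
    have h1 : DifferentiableAt ℂ (G a i j) ((0, χ₀) : ℂ × ℂ).1 := hG a i j h j.2
    have h2 := h1.comp (𝕜 := ℂ) ((0, χ₀) : ℂ × ℂ) differentiableAt_fst
    have h3 : DifferentiableAt ℂ (fun x : ℂ × ℂ => ∏ t ∈ Ioc (i : ℕ) j, PH (vN N) x.1 x.2 t)
        (0, χ₀) := prod_diff _ _ _ fun t => PH_diff _ _ _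
    exact h3.mul h2
  · simp only [if_neg h]
    exact differentiableAt_const _

theorem Te_diff (hG : ∀ a i j, i ≤ j → j < N → DifferentiableAt ℂ (G a i j) 0)
    (ls : List (ℤ × ℤ)) (χ₀ : ℂ) :
    DifferentiableAt ℂ (fun x : ℂ × ℂ => Te N G ls x.1 x.2) (0, χ₀) := by
  refine diff_trace (fun x : ℂ × ℂ =>
    (ls.map fun q : ℤ × ℤ => MAe N G x.1 q.1 * MBe N G x.1 x.2 q.2).prod) _ ?_
  refine diff_list (fun (x : ℂ × ℂ) (q : ℤ × ℤ) => MAe N G x.1 q.1 * MBe N G x.1 x.2 q.2) _ ?_ ls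
  intro q
  exact diff_mul (fun x : ℂ × ℂ => MAe N G x.1 q.1) (fun x : ℂ × ℂ => MBe N G x.1 x.2 q.2) _
    (MAe_diff hG q.1 χ₀) (MBe_diff hG q.2 χ₀)

theorem He_diff (hG : ∀ a i j, i ≤ j → j < N → DifferentiableAt ℂ (G a i j) 0)
    (ls : List (ℤ × ℤ)) (p : ℕ) (χ₀ : ℂ) :
    DifferentiableAt ℂ (fun x : ℂ × ℂ => He N G ls p x.1 x.2) (0, χ₀) := by
  have hc : ∀ i j, DifferentiableAt ℂ (fun _ : ℂ × ℂ => pH N p i j) (0, χ₀) :=
    fun i j => differentiableAt_const _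
  refine diff_trace (fun x : ℂ × ℂ => pH N p *
    (ls.map fun q : ℤ × ℤ => MAe N G x.1 q.1 * pH N p * MBe N G x.1 x.2 q.2 * pH N p).prod) _ ?_
  refine diff_mul (fun _ : ℂ × ℂ => pH N p) (fun x : ℂ × ℂ =>
    (ls.map fun q : ℤ × ℤ => MAe N G x.1 q.1 * pH N p * MBe N G x.1 x.2 q.2 * pH N p).prod) _
    hc ?_
  refine diff_list (fun (x : ℂ × ℂ) (q : ℤ × ℤ) =>
    MAe N G x.1 q.1 * pH N p * MBe N G x.1 x.2 q.2 * pH N p) _ ?_ ls
  intro q
  refine diff_mul (fun x : ℂ × ℂ => MAe N G x.1 q.1 * pH N p * MBe N G x.1 x.2 q.2)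
    (fun _ : ℂ × ℂ => pH N p) _ ?_ hc
  refine diff_mul (fun x : ℂ × ℂ => MAe N G x.1 q.1 * pH N p)
    (fun x : ℂ × ℂ => MBe N G x.1 x.2 q.2) _ ?_ (MBe_diff hG q.2 χ₀)
  exact diff_mul (fun x : ℂ × ℂ => MAe N G x.1 q.1) (fun _ : ℂ × ℂ => pH N p) _
    (MAe_diff hG q.1 χ₀) hc

/-! ### The values at `ε = 0` -/

theorem MAe_zero (c : ℤ → ℂ) (hG0 : ∀ a i j, i ≤ j → j < N → G a i j 0 = c a * cJ N a i j)
    (a : ℤ) : MAe N G 0 a = c a • MA0 N a := by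
  funext i j
  show (if j ≤ i then G a j i 0 else 0) = c a * (if j ≤ i then cJ N a j i else 0)
  by_cases h : j ≤ i
  · rw [if_pos h, if_pos h, hG0 a j i h i.2]
  · rw [if_neg h, if_neg h, mul_zero]

theorem MBe_zero (hN : 2 ≤ N) (c : ℤ → ℂ)
    (hG0 : ∀ a i j, i ≤ j → j < N → G a i j 0 = c a * cJ N a i j) (χ : ℂ)
    (a : ℤ) : MBe N G 0 χ a = c a • MB0 N χ a := by
  funext i j
  show (if i ≤ j then (∏ t ∈ Ioc (i : ℕ) j, PH (vN N) 0 χ t) * G a i j 0 else 0) =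
    c a * (if i ≤ j then (∏ t ∈ Ioc (i : ℕ) j, Ph N χ t) * cJ N a i j else 0)
  by_cases h : i ≤ j
  · rw [if_pos h, if_pos h, hG0 a i j h j.2, Finset.prod_congr rfl fun t _ => PH_zero N t hN χ]
    ring
  · rw [if_neg h, if_neg h, mul_zero]

/-- the common factor -/
noncomputable def CC (c : ℤ → ℂ) (ls : List (ℤ × ℤ)) : ℂ := (ls.map fun x => c x.1 * c x.2).prod

theorem Te_zero (hN : 2 ≤ N) (c : ℤ → ℂ)
    (hG0 : ∀ a i j, i ≤ j → j < N → G a i j 0 = c a * cJ N a i j) (ls : List (ℤ × ℤ)) (χ : ℂ) :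
    Te N G ls 0 χ = CC c ls * Tf N ls χ := by
  have k : (ls.map fun x => MAe N G 0 x.1 * MBe N G 0 χ x.2) =
      ls.map fun x => (c x.1 * c x.2) • (MA0 N x.1 * MB0 N χ x.2) :=
    List.map_congr_left fun x _ => by
      rw [MAe_zero c hG0, MBe_zero hN c hG0, smul_mul_smul_comm]
  rw [Te, k, smul_list, Matrix.trace_smul, smul_eq_mul, CC, Tf]

theorem He_zero' (hN : 2 ≤ N) (c : ℤ → ℂ)
    (hG0 : ∀ a i j, i ≤ j → j < N → G a i j 0 = c a * cJ N a i j) (ls : List (ℤ × ℤ)) (p : ℕ) :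
    He N G ls p 0 (2 * π * p / N) = CC c ls * Thi N ls p := by
  have k : (ls.map fun x => MAe N G 0 x.1 * pH N p * MBe N G 0 (2 * π * p / N) x.2 * pH N p) =
      ls.map fun x => (c x.1 * c x.2) •
        (MA0 N x.1 * pH N p * MB0 N (2 * π * p / N) x.2 * pH N p) :=
    List.map_congr_left fun x _ => by
      rw [MAe_zero c hG0, MBe_zero hN c hG0]
      simp only [Matrix.smul_mul, Matrix.mul_smul, smul_smul]
      rw [mul_comm]
  rw [He, k, smul_list, Matrix.mul_smul, Matrix.trace_smul, smul_eq_mul, CC, Thi]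

/-! ### The symmetry -/

theorem wE_refl (hN : 2 ≤ N) (m : ℤ) (p : ℕ) (hp : p < N - 1) :
    wE N m (2 * π * ((N - 1 - 1 - p + 1 : ℕ) : ℂ) / N) = -wE N m (2 * π * ((p + 1 : ℕ) : ℂ) / N) ∧
    Complex.cos (2 * π * ((N - 1 - 1 - p + 1 : ℕ) : ℂ) / N) =
      Complex.cos (2 * π * ((p + 1 : ℕ) : ℂ) / N) := by
  have hN0 : (N : ℂ) ≠ 0 := by
    have : N ≠ 0 := by omega
    exact_mod_cast this
  have hpi : (π : ℂ) ≠ 0 := by exact_mod_cast Real.pi_ne_zero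
  have e1 : ((N - 1 - 1 - p + 1 : ℕ) : ℂ) = N - ((p + 1 : ℕ) : ℂ) := by
    have : (N - 1 - 1 - p + 1) + (p + 1) = N := by omega
    have h2 : (((N - 1 - 1 - p + 1) + (p + 1) : ℕ) : ℂ) = N := by rw [this]
    push_cast at h2 ⊢
    linear_combination h2
  have e2 : 2 * (π : ℂ) * ((N - 1 - 1 - p + 1 : ℕ) : ℂ) / N =
      2 * π - 2 * π * ((p + 1 : ℕ) : ℂ) / N := by
    rw [e1]
    field_simp
  generalize hr : p + 1 = r at *
  constructor
  · rw [e2, wE, wE]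
    have s1 : Complex.sin (2 * π - 2 * π * (r : ℂ) / N) = -Complex.sin (2 * π * (r : ℂ) / N) := by
      rw [Complex.sin_two_pi_sub]
    have s2 : Ea (2 * m) N (2 * π - 2 * π * (r : ℂ) / N) = Ea (2 * m) N (2 * π * (r : ℂ) / N) := by
      rw [Ea, Ea, Complex.exp_eq_exp_iff_exists_int]
      refine ⟨m * N - 2 * m * r, ?_⟩
      push_cast
      field_simp
      ring
    rw [s1, s2]
    ring
  · rw [e2, Complex.cos_two_pi_sub]

/-- sums of odd functions vanish -/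
theorem sum_odd (hN : 2 ≤ N) (m : ℤ) (f : ℂ → ℂ) :
    ∑ p ∈ range N, wE N m (2 * π * p / N) * f (Complex.cos (2 * π * p / N)) = 0 := by
  have e : N = (N - 1) + 1 := by omega
  have h0 : ∑ p ∈ range N, wE N m (2 * π * p / N) * f (Complex.cos (2 * π * p / N)) =
      ∑ p ∈ range (N - 1), wE N m (2 * π * ((p + 1 : ℕ) : ℂ) / N) *
        f (Complex.cos (2 * π * ((p + 1 : ℕ) : ℂ) / N)) := by
    conv_lhs => rw [e, Finset.sum_range_succ']
    rw [← e]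
    have : wE N m (2 * π * ((0 : ℕ) : ℂ) / N) = 0 := by
      rw [wE]
      simp
    rw [this, zero_mul, add_zero]
  have h1 : ∑ p ∈ range (N - 1), wE N m (2 * π * ((p + 1 : ℕ) : ℂ) / N) *
        f (Complex.cos (2 * π * ((p + 1 : ℕ) : ℂ) / N)) =
      ∑ p ∈ range (N - 1), -(wE N m (2 * π * ((p + 1 : ℕ) : ℂ) / N) *
        f (Complex.cos (2 * π * ((p + 1 : ℕ) : ℂ) / N))) := by
    conv_lhs => rw [← Finset.sum_range_reflect]
    refine Finset.sum_congr rfl fun p hp => ?_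
    have hp' := Finset.mem_range.mp hp
    obtain ⟨a, b⟩ := wE_refl hN m p hp'
    rw [a, b]
    ring
  rw [Finset.sum_neg_distrib] at h1
  rw [h0]
  have h2 := self_eq_neg.mp h1
  exact h2

end Pool.Agent.Y967.CB
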