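import Pool.Agent.Y967.CB.Exf

/-!
# Closed 3-braids: the exact formula at the root of unity, the derivative
-/

set_option autoImplicit false

namespace Pool.Agent.Y967.CB

open Finset Filter Topology Pool.Agent.Y472 Pool.Agent.H550R3.Jones Pool.Agent.W711.HT
open scoped Real

/-- the super-diagonal entries as functions of `cos χ` -/
noncomputable def PHc (w ε y : ℂ) (t : ℕ) : ℂ :=
  (w ^ t - (w ^ t)⁻¹) * ((Complex.exp ε)⁻¹ * w ^ t - Complex.exp ε * (w ^ t)⁻¹) *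
    (Complex.exp ε ^ 3 * ((w ^ t) ^ 2)⁻¹ + (Complex.exp ε ^ 3)⁻¹ * (w ^ t) ^ 2 - 2 * y)

/-- the matrix of `σ_2^b` as function of `cos χ` -/
noncomputable def MBc (N : ℕ) (G : ℤ → ℕ → ℕ → ℂ → ℂ) (ε y : ℂ) (b : ℤ) :
    Matrix (Fin N) (Fin N) ℂ :=
  fun i j => if i ≤ j then (∏ t ∈ Ioc (i : ℕ) j, PHc (vN N) ε y t) * G b i j ε else 0

/-- the full trace as function of `cos χ` -/
noncomputable def Tc (N : ℕ) (G : ℤ → ℕ → ℕ → ℂ → ℂ) (ls : List (ℤ × ℤ)) (ε y : ℂ) : ℂ :=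
  ((ls.map fun x => MAe N G ε x.1 * MBc N G ε y x.2).prod).trace

theorem Te_eq (N : ℕ) (G : ℤ → ℕ → ℕ → ℂ → ℂ) (ls : List (ℤ × ℤ)) (ε χ : ℂ) :
    Te N G ls ε χ = Tc N G ls ε (Complex.cos χ) := rfl

theorem chi_zero (N p : ℕ) : chi N p 0 = 2 * π * p / N := by
  rw [chi, mul_zero, sub_zero]

theorem chi_deriv (N p : ℕ) : HasDerivAt (chi N p) (-3 * Complex.I) 0 := by
  have h0 : HasDerivAt (fun y : ℂ => 3 * Complex.I * y) (3 * Complex.I * 1) 0 :=
    (hasDerivAt_id (0 : ℂ)).const_mul (3 * Complex.I)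
  have h := h0.const_sub (2 * (π : ℂ) * p / N)
  have e : -(3 * Complex.I * 1) = -3 * Complex.I := by ring
  rw [e] at h
  exact h

variable {N : ℕ} {G : ℤ → ℕ → ℕ → ℂ → ℂ}

/-- the sum -/
noncomputable def SS (N : ℕ) (G : ℤ → ℕ → ℕ → ℂ → ℂ) (ls : List (ℤ × ℤ)) (m : ℤ) (ε : ℂ) : ℂ :=
  ∑ p ∈ range N, (wE N m (chi N p ε) * Te N G ls ε (chi N p ε) +
        wE N m (chi N p ε) * He N G ls p ε (chi N p ε) * (Complex.exp (-6 * m * N * ε) - 1))

theorem SS_zero (hN : 2 ≤ N) (ls : List (ℤ × ℤ)) (m : ℤ) : SS N G ls m 0 = 0 := by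
  have h := sum_odd hN m (Tc N G ls 0)
  refine Eq.trans ?_ h
  rw [SS]
  refine Finset.sum_congr rfl fun p _ => ?_
  rw [chi_zero, mul_zero, Complex.exp_zero, sub_self, mul_zero, add_zero, Te_eq]

theorem SS_deriv (hN : 2 ≤ N) (hG : ∀ a i j, i ≤ j → j < N → DifferentiableAt ℂ (G a i j) 0)
    (c : ℤ → ℂ) (hG0 : ∀ a i j, i ≤ j → j < N → G a i j 0 = c a * cJ N a i j)
    (ls : List (ℤ × ℤ)) (m : ℤ) :
    HasDerivAt (SS N G ls m) (CC c ls * (-3 * Complex.I) *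
      (∑ p ∈ range N, deriv (fun χ => wE N m χ * Tf N ls χ) (2 * π * p / N) -
      2 * Complex.I * m * N * ∑ p ∈ range N, wE N m (2 * π * p / N) * Thi N ls p)) 0 := by
  set Φ : ℂ × ℂ → ℂ := fun x => wE N m x.2 * Te N G ls x.1 x.2 with hΦ
  have hd : ∀ χ : ℂ, DifferentiableAt ℂ Φ (0, χ) := fun χ => by
    have h1 : DifferentiableAt ℂ (wE N m) ((0, χ) : ℂ × ℂ).2 := wE_diff N m χ
    exact (h1.comp (𝕜 := ℂ) ((0, χ) : ℂ × ℂ) differentiableAt_snd).mul (Te_diff hG ls χ)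
  -- derivatives in both variables
  have h2 : ∀ χ : ℂ, HasDerivAt (fun ε => Φ (ε, χ)) (fderiv ℂ Φ (0, χ) (1, 0)) 0 := fun χ => by
    have hγ : HasDerivAt (fun ε : ℂ => (ε, χ)) ((1 : ℂ), (0 : ℂ)) 0 :=
      (hasDerivAt_id (0 : ℂ)).prodMk (hasDerivAt_const (0 : ℂ) χ)
    exact (hd χ).hasFDerivAt.comp_hasDerivAt_of_eq (0 : ℂ) hγ rfl
  have h3 : ∀ χ : ℂ, HasDerivAt (fun χ' => Φ (0, χ')) (fderiv ℂ Φ (0, χ) (0, 1)) χ := fun χ => by
    have hγ : HasDerivAt (fun χ' : ℂ => ((0 : ℂ), χ')) ((0 : ℂ), (1 : ℂ)) χ :=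
      (hasDerivAt_const χ (0 : ℂ)).prodMk (hasDerivAt_id χ)
    exact (hd χ).hasFDerivAt.comp_hasDerivAt_of_eq χ hγ rfl
  have h3' : ∀ χ : ℂ, fderiv ℂ Φ (0, χ) (0, 1) =
      CC c ls * deriv (fun χ => wE N m χ * Tf N ls χ) χ := fun χ => by
    rw [← deriv_const_mul_field, ← (h3 χ).deriv]
    congr 1
    funext χ'
    show wE N m χ' * Te N G ls 0 χ' = _
    rw [Te_zero hN c hG0]
    ring
  have h1 : ∀ p : ℕ, HasDerivAt (fun ε => Φ (ε, chi N p ε))
      (fderiv ℂ Φ (0, 2 * π * p / N) (1, 0) +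
        -3 * Complex.I * (CC c ls * deriv (fun χ => wE N m χ * Tf N ls χ) (2 * π * p / N))) 0 := by
    intro p
    have hγ : HasDerivAt (fun ε : ℂ => (ε, chi N p ε)) ((1 : ℂ), -3 * Complex.I) 0 :=
      (hasDerivAt_id (0 : ℂ)).prodMk (chi_deriv N p)
    have h := (hd (2 * π * p / N)).hasFDerivAt.comp_hasDerivAt_of_eq (0 : ℂ) hγ
      (by rw [chi_zero])
    have e : ((1 : ℂ), -3 * Complex.I) = (1, 0) + (-3 * Complex.I) • ((0 : ℂ), (1 : ℂ)) := by
      ext <;> simp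
    rw [e, map_add, map_smul, smul_eq_mul, h3'] at h
    exact h
  have hz : ∑ p ∈ range N, fderiv ℂ Φ (0, 2 * π * p / N) (1, 0) = 0 := by
    have ha : HasDerivAt (fun ε => ∑ p ∈ range N, Φ (ε, 2 * π * p / N))
        (∑ p ∈ range N, fderiv ℂ Φ (0, 2 * π * p / N) (1, 0)) 0 :=
      HasDerivAt.fun_sum fun p _ => h2 _
    have hb : (fun ε : ℂ => ∑ p ∈ range N, Φ (ε, 2 * π * p / N)) = fun _ => 0 := by
      funext ε
      exact sum_odd hN m (Tc N G ls ε)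
    rw [hb] at ha
    exact ha.unique (hasDerivAt_const _ _)
  -- the second term
  have h4 : ∀ p : ℕ, HasDerivAt (fun ε => wE N m (chi N p ε) * He N G ls p ε (chi N p ε) *
      (Complex.exp (-6 * m * N * ε) - 1))
      (wE N m (2 * π * p / N) * (CC c ls * Thi N ls p) * (-6 * m * N)) 0 := by
    intro p
    have hu : DifferentiableAt ℂ (fun x : ℂ × ℂ => wE N m x.2 * He N G ls p x.1 x.2)
        (0, 2 * π * p / N) := by
      have h1 : DifferentiableAt ℂ (wE N m) ((0, 2 * π * p / N) : ℂ × ℂ).2 := wE_diff N m _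
      exact (h1.comp (𝕜 := ℂ) ((0, 2 * π * p / N) : ℂ × ℂ) differentiableAt_snd).mul
        (He_diff hG ls p _)
    have hγ : HasDerivAt (fun ε : ℂ => (ε, chi N p ε)) ((1 : ℂ), -3 * Complex.I) 0 :=
      (hasDerivAt_id (0 : ℂ)).prodMk (chi_deriv N p)
    have hu' := hu.hasFDerivAt.comp_hasDerivAt_of_eq (0 : ℂ) hγ (by rw [chi_zero])
    have hv : HasDerivAt (fun ε : ℂ => Complex.exp (-6 * m * N * ε) - 1) (-6 * m * N) 0 := by
      have h5 := (((hasDerivAt_id (0 : ℂ)).const_mul (-6 * (m : ℂ) * N)).cexp).sub_const 1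
      simp only [id, mul_zero, Complex.exp_zero, mul_one, one_mul] at h5
      exact h5
    have h6 := hu'.mul hv
    have e0 : ((fun x : ℂ × ℂ => wE N m x.2 * He N G ls p x.1 x.2) ∘
        fun ε : ℂ => (ε, chi N p ε)) 0 = wE N m (2 * π * p / N) * (CC c ls * Thi N ls p) := by
      show wE N m (chi N p 0) * He N G ls p 0 (chi N p 0) = _
      rw [chi_zero, He_zero' hN c hG0]
    rw [e0] at h6
    simp only [mul_zero, Complex.exp_zero, sub_self, zero_add] at h6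
    exact h6
  have h7 : HasDerivAt (SS N G ls m) (∑ p ∈ range N,
      (fderiv ℂ Φ (0, 2 * π * p / N) (1, 0) +
        -3 * Complex.I * (CC c ls * deriv (fun χ => wE N m χ * Tf N ls χ) (2 * π * p / N)) +
      wE N m (2 * π * p / N) * (CC c ls * Thi N ls p) * (-6 * m * N))) 0 :=
    HasDerivAt.fun_sum fun p _ => (h1 p).add (h4 p)
  have e7 : ∑ p ∈ range N, (fderiv ℂ Φ (0, 2 * π * p / N) (1, 0) +
        -3 * Complex.I * (CC c ls * deriv (fun χ => wE N m χ * Tf N ls χ) (2 * π * p / N)) +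
      wE N m (2 * π * p / N) * (CC c ls * Thi N ls p) * (-6 * m * N)) =
      CC c ls * (-3 * Complex.I) *
      (∑ p ∈ range N, deriv (fun χ => wE N m χ * Tf N ls χ) (2 * π * p / N) -
      2 * Complex.I * m * N * ∑ p ∈ range N, wE N m (2 * π * p / N) * Thi N ls p) := by
    rw [Finset.sum_add_distrib, Finset.sum_add_distrib, hz, zero_add, mul_sub, Finset.mul_sum,
      Finset.mul_sum, Finset.mul_sum, sub_eq_add_neg, ← Finset.sum_neg_distrib]
    congr 1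
    · exact Finset.sum_congr rfl fun p _ => by ring
    · refine Finset.sum_congr rfl fun p _ => ?_
      have hI : Complex.I ^ 2 = -1 := Complex.I_sq
      linear_combination (-6 * CC c ls * m * N * wE N m (2 * π * p / N) * Thi N ls p) * hI
  rw [← e7]
  exact h7

end Pool.Agent.Y967.CB
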