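import Pool.Agent.W469.HT.Mwk
import Pool.Agent.Y472.B.Defs

/-!
# Asymptotics of the kernel of an edge: the potential and the window
-/

set_option autoImplicit false

namespace Pool.Agent.Y967.CB.MW

open Filter Finset Topology Metric
open scoped Real
open Pool.Agent.W711.HT
open Pool.Agent.W469.HT.Mwk
open Pool.Agent.Y472 (Tg kh)

/-! ### the potential -/

noncomputable def QQ3 (ψ ψ' χ z : ℂ) : ℂ := rrF z ψ + rrF z ψ' + rrF (1 / 2 - z) χ - 2 * ssF z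

noncomputable def D13 (ψ ψ' χ z : ℂ) : ℂ :=
  Complex.log (2 * Complex.cos ψ + 2 * Complex.cos (2 * π * z)) +
    Complex.log (2 * Complex.cos ψ' + 2 * Complex.cos (2 * π * z)) -
    Complex.log (2 * Complex.cos χ - 2 * Complex.cos (2 * π * z)) -
    2 * Complex.log (2 * Complex.sin (π * z))

noncomputable def D23 (p : ℂ × ℂ × ℂ × ℂ) : ℂ :=
  -(4 * π * Complex.sin (2 * π * p.1)) / (2 * Complex.cos p.2.1 + 2 * Complex.cos (2 * π * p.1)) +
  -(4 * π * Complex.sin (2 * π * p.1)) / (2 * Complex.cos p.2.2.1 + 2 * Complex.cos (2 * π * p.1)) -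
  (4 * π * Complex.sin (2 * π * p.1)) / (2 * Complex.cos p.2.2.2 - 2 * Complex.cos (2 * π * p.1)) -
  2 * ((2 * π * Complex.cos (π * p.1)) / (2 * Complex.sin (π * p.1)))

theorem near3 : ∃ R : ℝ, 0 < R ∧ ∀ z ψ ψ' χ : ℂ, ‖z - 1 / 4‖ < R → ‖ψ‖ < R → ‖ψ'‖ < R → ‖χ‖ < R →
    2 * Complex.cos ψ + 2 * Complex.cos (2 * π * z) ∈ Complex.slitPlane ∧
    2 * Complex.cos ψ' + 2 * Complex.cos (2 * π * z) ∈ Complex.slitPlane ∧
    2 * Complex.cos χ - 2 * Complex.cos (2 * π * z) ∈ Complex.slitPlane ∧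
    2 * Complex.sin (π * z) ∈ Complex.slitPlane ∧
    ‖D23 (z, ψ, ψ', χ) + 8 * π‖ ≤ 2 / 5 * π := by
  have hs2 : (0 : ℝ) < √2 / 2 := by positivity
  have hs2c : ((√2 / 2 : ℝ) : ℂ) ≠ 0 := by exact_mod_cast hs2.ne'
  let p₀ : ℂ × ℂ × ℂ × ℂ := (1 / 4, 0, 0, 0)
  have c1 : ContinuousAt (fun p : ℂ × ℂ × ℂ × ℂ =>
      2 * Complex.cos p.2.1 + 2 * Complex.cos (2 * π * p.1)) p₀ := by fun_prop
  have c2 : ContinuousAt (fun p : ℂ × ℂ × ℂ × ℂ =>
      2 * Complex.cos p.2.2.1 + 2 * Complex.cos (2 * π * p.1)) p₀ := by fun_prop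
  have c2' : ContinuousAt (fun p : ℂ × ℂ × ℂ × ℂ =>
      2 * Complex.cos p.2.2.2 - 2 * Complex.cos (2 * π * p.1)) p₀ := by fun_prop
  have c3 : ContinuousAt (fun p : ℂ × ℂ × ℂ × ℂ => 2 * Complex.sin (π * p.1)) p₀ := by fun_prop
  have v1 : 2 * Complex.cos p₀.2.1 + 2 * Complex.cos (2 * π * p₀.1) = 2 := by
    show 2 * Complex.cos 0 + 2 * Complex.cos (2 * π * (1 / 4)) = 2
    rw [cos_half, Complex.cos_zero]
    ring
  have v2 : 2 * Complex.cos p₀.2.2.1 + 2 * Complex.cos (2 * π * p₀.1) = 2 := by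
    show 2 * Complex.cos 0 + 2 * Complex.cos (2 * π * (1 / 4)) = 2
    rw [cos_half, Complex.cos_zero]
    ring
  have v2' : 2 * Complex.cos p₀.2.2.2 - 2 * Complex.cos (2 * π * p₀.1) = 2 := by
    show 2 * Complex.cos 0 - 2 * Complex.cos (2 * π * (1 / 4)) = 2
    rw [cos_half, Complex.cos_zero]
    ring
  have v3 : 2 * Complex.sin (π * p₀.1) = ((√2 : ℝ) : ℂ) := by
    show 2 * Complex.sin (π * (1 / 4)) = _
    rw [sin_quarter]
    push_cast
    ring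
  have s1 : (2 : ℂ) ∈ Complex.slitPlane := by
    rw [show (2 : ℂ) = ((2 : ℝ) : ℂ) by norm_num, Complex.ofReal_mem_slitPlane]
    norm_num
  have s3 : ((√2 : ℝ) : ℂ) ∈ Complex.slitPlane := by
    rw [Complex.ofReal_mem_slitPlane]
    positivity
  have e1 : ∀ᶠ p in 𝓝 p₀, 2 * Complex.cos p.2.1 + 2 * Complex.cos (2 * π * p.1) ∈
      Complex.slitPlane := by
    refine c1.eventually_mem ?_
    rw [v1]
    exact Complex.isOpen_slitPlane.mem_nhds s1
  have e2 : ∀ᶠ p in 𝓝 p₀, 2 * Complex.cos p.2.2.1 + 2 * Complex.cos (2 * π * p.1) ∈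
      Complex.slitPlane := by
    refine c2.eventually_mem ?_
    rw [v2]
    exact Complex.isOpen_slitPlane.mem_nhds s1
  have e2' : ∀ᶠ p in 𝓝 p₀, 2 * Complex.cos p.2.2.2 - 2 * Complex.cos (2 * π * p.1) ∈
      Complex.slitPlane := by
    refine c2'.eventually_mem ?_
    rw [v2']
    exact Complex.isOpen_slitPlane.mem_nhds s1
  have e3 : ∀ᶠ p in 𝓝 p₀, 2 * Complex.sin (π * p.1) ∈ Complex.slitPlane := by
    refine c3.eventually_mem ?_
    rw [v3]
    exact Complex.isOpen_slitPlane.mem_nhds s3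
  have c4 : ContinuousAt D23 p₀ := by
    unfold D23
    refine ContinuousAt.sub (ContinuousAt.sub (ContinuousAt.add (ContinuousAt.div (by fun_prop) c1 ?_)
      (ContinuousAt.div (by fun_prop) c2 ?_)) (ContinuousAt.div (by fun_prop) c2' ?_))
      (ContinuousAt.mul continuousAt_const (ContinuousAt.div (by fun_prop) c3 ?_))
    · rw [v1]; norm_num
    · rw [v2]; norm_num
    · rw [v2']; norm_num
    · rw [v3]
      exact_mod_cast (show (√2 : ℝ) ≠ 0 by positivity)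
  have v4 : D23 p₀ + 8 * π = 0 := by
    show -(4 * π * Complex.sin (2 * π * (1 / 4))) / (2 * Complex.cos 0 +
      2 * Complex.cos (2 * π * (1 / 4))) + -(4 * π * Complex.sin (2 * π * (1 / 4))) /
      (2 * Complex.cos 0 + 2 * Complex.cos (2 * π * (1 / 4))) -
      (4 * π * Complex.sin (2 * π * (1 / 4))) /
      (2 * Complex.cos 0 - 2 * Complex.cos (2 * π * (1 / 4))) -
      2 * ((2 * π * Complex.cos (π * (1 / 4))) / (2 * Complex.sin (π * (1 / 4)))) + 8 * π = 0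
    rw [cos_half, sin_half, cos_quarter, sin_quarter, Complex.cos_zero]
    have : 2 * (π : ℂ) * ((√2 / 2 : ℝ) : ℂ) / (2 * ((√2 / 2 : ℝ) : ℂ)) = π := by
      field_simp
    rw [this]
    ring
  have e4 : ∀ᶠ p in 𝓝 p₀, ‖D23 p + 8 * π‖ ≤ 2 / 5 * π := by
    have c5 : ContinuousAt (fun p => ‖D23 p + 8 * π‖) p₀ := (c4.add continuousAt_const).norm
    refine c5.eventually_le_const ?_
    show ‖D23 p₀ + 8 * π‖ < _
    rw [v4, norm_zero]
    positivity
  obtain ⟨R, hR, h⟩ := Metric.eventually_nhds_iff.1 (e1.and (e2.and (e2'.and (e3.and e4))))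
  refine ⟨R, hR, fun z ψ ψ' χ hz hψ hψ' hχ => ?_⟩
  have hd : dist (z, ψ, ψ', χ) p₀ < R := by
    rw [Prod.dist_eq, Prod.dist_eq, Prod.dist_eq, dist_eq_norm, dist_zero_right, dist_zero_right,
      dist_zero_right]
    exact max_lt hz (max_lt hψ (max_lt hψ' hχ))
  obtain ⟨a1, a2, a2', a3, a4⟩ := h hd
  exact ⟨a1, a2, a2', a3, a4⟩

theorem hasDerivAt_D13 {z ψ ψ' χ : ℂ}
    (h1 : 2 * Complex.cos ψ + 2 * Complex.cos (2 * π * z) ∈ Complex.slitPlane)
    (h2 : 2 * Complex.cos ψ' + 2 * Complex.cos (2 * π * z) ∈ Complex.slitPlane)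
    (h2' : 2 * Complex.cos χ - 2 * Complex.cos (2 * π * z) ∈ Complex.slitPlane)
    (h3 : 2 * Complex.sin (π * z) ∈ Complex.slitPlane) :
    HasDerivAt (D13 ψ ψ' χ) (D23 (z, ψ, ψ', χ)) z := by
  have l1 : HasDerivAt (fun z : ℂ => 2 * (π : ℂ) * z) (2 * (π : ℂ)) z := by
    simpa using (hasDerivAt_id z).const_mul (2 * (π : ℂ))
  have l2 : HasDerivAt (fun z : ℂ => (π : ℂ) * z) (π : ℂ) z := by
    simpa using (hasDerivAt_id z).const_mul (π : ℂ)
  have a1 : ∀ φ : ℂ, HasDerivAt (fun z => 2 * Complex.cos φ + 2 * Complex.cos (2 * π * z))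
      (-(4 * π * Complex.sin (2 * π * z))) z := by
    intro φ
    exact (((l1.ccos).const_mul 2).const_add (2 * Complex.cos φ)).congr_deriv (by ring)
  have a1' : ∀ φ : ℂ, HasDerivAt (fun z => 2 * Complex.cos φ - 2 * Complex.cos (2 * π * z))
      (4 * π * Complex.sin (2 * π * z)) z := by
    intro φ
    exact (((l1.ccos).const_mul 2).const_sub (2 * Complex.cos φ)).congr_deriv (by ring)
  have a2 : HasDerivAt (fun z => 2 * Complex.sin (π * z)) (2 * π * Complex.cos (π * z)) z := by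
    exact ((l2.csin).const_mul 2).congr_deriv (by ring)
  exact ((((a1 ψ).clog h1).add ((a1 ψ').clog h2)).sub ((a1' χ).clog h2')).sub
    ((a2.clog h3).const_mul 2)

/-! ### the window -/

theorem window_abs {q : ℕ → ℂ → ℂ} {Q Q1 Q2 : ℂ → ℂ} {R w : ℝ} {z₀ : ℂ} (hLS : S_LAPSUM)
    (hw : 0 < w) (hwR : w ≤ R / 2) (hw16 : w ≤ 1 / 16)
    (hq : ∀ᶠ N : ℕ in atTop, DifferentiableOn ℂ (q N) (ball (1 / 4) R))
    (hu : TendstoUniformlyOn q Q atTop (ball (1 / 4) R))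
    (dQ : ∀ z ∈ ball (1 / 4 : ℂ) R, HasDerivAt Q (Q1 z) z)
    (dD : ∀ z ∈ ball (1 / 4 : ℂ) R, HasDerivAt Q1 (Q2 z) z)
    (dB : ∀ z ∈ ball (1 / 4 : ℂ) R, ‖Q2 z + 8 * π‖ ≤ 2 / 5 * π)
    (hz₀ : ‖z₀ - 1 / 4‖ ≤ w / 20) (hcr : Q1 z₀ = 0) :
    Tendsto (fun N : ℕ => Real.log ‖∑ d ∈ Ico (⌈(1 / 4 - w) * N⌉₊) (⌊(1 / 4 + w) * N⌋₊),
      Complex.exp (N * q N ((d : ℂ) / N))‖ / N) atTop (𝓝 (Q z₀).re) := by
  have hB : Convex ℝ (ball (1 / 4 : ℂ) R) := convex_ball _ _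
  have hz₀B : z₀ ∈ ball (1 / 4 : ℂ) R := by
    rw [mem_ball, dist_eq_norm]
    linarith
  have key : ∀ z ∈ ball (1 / 4 : ℂ) R, (Q z).re ≤ (Q z₀).re -
      18 / 5 * π * (z.re - z₀.re) ^ 2 + 22 / 5 * π * (z.im - z₀.im) ^ 2 :=
    fun z hz => reQ hB dQ dD dB hz₀B hcr hz
  have hre : |z₀.re - 1 / 4| ≤ w / 20 := by
    have h1 := (Complex.abs_re_le_norm (z₀ - 1 / 4)).trans hz₀
    have h2 : (z₀ - 1 / 4).re = z₀.re - 1 / 4 := by
      rw [Complex.sub_re]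
      norm_num
    rwa [h2] at h1
  have him : |z₀.im| ≤ w / 20 := by
    have h1 := (Complex.abs_im_le_norm (z₀ - 1 / 4)).trans hz₀
    have h2 : (z₀ - 1 / 4).im = z₀.im := by
      rw [Complex.sub_im]
      norm_num
    rwa [h2] at h1
  rw [abs_le] at hre him
  have hpi := Real.pi_pos
  have hmem : ∀ x y : ℝ, 1 / 4 - w ≤ x → x ≤ 1 / 4 + w → |y| ≤ w / 2 →
      (x : ℂ) + y * Complex.I ∈ ball (1 / 4 : ℂ) R := by
    intro x y h1 h2 h3
    rw [mem_ball, dist_eq_norm]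
    have h4 := Complex.norm_le_abs_re_add_abs_im ((x : ℂ) + y * Complex.I - 1 / 4)
    have h5 : ((x : ℂ) + y * Complex.I - 1 / 4).re = x - 1 / 4 := by
      simp
    have h6 : ((x : ℂ) + y * Complex.I - 1 / 4).im = y := by
      simp
    rw [h5, h6] at h4
    have h7 : |x - 1 / 4| ≤ w := abs_le.2 ⟨by linarith, by linarith⟩
    linarith
  have hre' : ∀ x y : ℝ, ((x : ℂ) + y * Complex.I).re = x := by
    intro x y
    simp
  have him' : ∀ x y : ℝ, ((x : ℂ) + y * Complex.I).im = y := by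
    intro x y
    simp
  have hderiv : ∀ z ∈ ball (1 / 4 : ℂ) R, deriv Q z = Q1 z :=
    fun z hz => (dQ z hz).deriv
  refine hLS q Q (ball (1 / 4 : ℂ) R) (1 / 4 - w) (1 / 4 + w) (w / 2) z₀
    (fun N => ⌈(1 / 4 - w) * N⌉₊) (fun N => ⌊(1 / 4 + w) * N⌋₊) isOpen_ball hq ?_ hu
    hmem (by linarith) ?_ ?_ (by linarith) (by linarith) (abs_lt.2 ⟨by linarith, by linarith⟩)
    ((hderiv z₀ hz₀B).trans hcr) ?_ ?_ ?_ ?_
  · intro z hz
    exact (dQ z hz).differentiableAt.differentiableWithinAt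
  · have hc : (0 : ℝ) ≤ 1 / 4 - w := by linarith
    exact (tendsto_nat_ceil_mul_div_atTop hc).comp tendsto_natCast_atTop_atTop
  · have hc : (0 : ℝ) ≤ 1 / 4 + w := by linarith
    exact (tendsto_nat_floor_mul_div_atTop hc).comp tendsto_natCast_atTop_atTop
  · have h1 : deriv Q =ᶠ[𝓝 z₀] Q1 := by
      filter_upwards [isOpen_ball.mem_nhds hz₀B] with z hz
      exact hderiv z hz
    rw [h1.deriv_eq, (dD z₀ hz₀B).deriv]
    have h2 := (Complex.abs_re_le_norm _).trans (dB z₀ hz₀B)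
    have h3 : (Q2 z₀ + 8 * π).re = (Q2 z₀).re + 8 * π := by
      rw [Complex.add_re, show (8 * (π : ℂ)) = ((8 * π : ℝ) : ℂ) by push_cast; ring,
        Complex.ofReal_re]
    rw [h3] at h2
    have h4 := (abs_le.1 h2).2
    linarith
  · intro x h1 h2 h3
    have h4 := key _ (hmem x z₀.im h1 h2 (abs_le.2 ⟨by linarith, by linarith⟩))
    rw [hre', him', sub_self] at h4
    have h5 : 0 < (x - z₀.re) ^ 2 := by
      have : x - z₀.re ≠ 0 := sub_ne_zero.2 h3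
      positivity
    have h6 : 0 < 18 / 5 * π * (x - z₀.re) ^ 2 := by positivity
    linarith
  · intro y hy
    have hy' := abs_le.1 hy
    have h1 := key _ (hmem (1 / 4 - w) y le_rfl (by linarith) hy)
    have h2 := key _ (hmem (1 / 4 + w) y (by linarith) le_rfl hy)
    rw [hre', him'] at h1 h2
    have h3 : (19 / 20 * w) ^ 2 ≤ (1 / 4 - w - z₀.re) ^ 2 := by
      rw [sq_le_sq, abs_of_pos (by positivity)]
      rw [le_abs]
      right
      linarith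
    have h4 : (19 / 20 * w) ^ 2 ≤ (1 / 4 + w - z₀.re) ^ 2 := by
      rw [sq_le_sq, abs_of_pos (by positivity)]
      rw [le_abs]
      left
      linarith
    have h5 : (y - z₀.im) ^ 2 ≤ (11 / 20 * w) ^ 2 := by
      rw [sq_le_sq, abs_of_pos (show 0 < 11 / 20 * w by positivity), abs_le]
      constructor <;> linarith
    have h6 : 18 / 5 * π * (19 / 20 * w) ^ 2 ≤ 18 / 5 * π * (1 / 4 - w - z₀.re) ^ 2 := by gcongr
    have h7 : 18 / 5 * π * (19 / 20 * w) ^ 2 ≤ 18 / 5 * π * (1 / 4 + w - z₀.re) ^ 2 := by gcongr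
    have h8 : 22 / 5 * π * (y - z₀.im) ^ 2 ≤ 22 / 5 * π * (11 / 20 * w) ^ 2 := by gcongr
    have h9 : 0 < π * w ^ 2 := by positivity
    have h10 : 22 / 5 * π * (11 / 20 * w) ^ 2 < 18 / 5 * π * (19 / 20 * w) ^ 2 := by nlinarith
    constructor <;> linarith
  · intro x h1 h2
    have hh : |w / 2| ≤ w / 2 := by rw [abs_of_pos (by positivity)]
    have hh' : |-(w / 2)| ≤ w / 2 := by rw [abs_neg, abs_of_pos (by positivity)]
    have h3 := key _ (hmem x (w / 2) h1 h2 hh)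
    have h4 := key _ (hmem x (-(w / 2)) h1 h2 hh')
    rw [hre', him'] at h3 h4
    have e1 : (x : ℂ) - ((w / 2 : ℝ) : ℂ) * Complex.I = (x : ℂ) + ((-(w / 2) : ℝ) : ℂ) *
        Complex.I := by
      push_cast
      ring
    rw [e1]
    have h5 : (w / 2 - z₀.im) ^ 2 ≤ (11 / 20 * w) ^ 2 := by
      rw [sq_le_sq, abs_of_pos (show 0 < 11 / 20 * w by positivity), abs_le]
      constructor <;> linarith
    have h6 : (-(w / 2) - z₀.im) ^ 2 ≤ (11 / 20 * w) ^ 2 := by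
      rw [sq_le_sq, abs_of_pos (show 0 < 11 / 20 * w by positivity), abs_le]
      constructor <;> linarith
    have h7 : 22 / 5 * π * (w / 2 - z₀.im) ^ 2 ≤ 22 / 5 * π * (11 / 20 * w) ^ 2 := by gcongr
    have h8 : 22 / 5 * π * (-(w / 2) - z₀.im) ^ 2 ≤ 22 / 5 * π * (11 / 20 * w) ^ 2 := by gcongr
    have h9 : 0 ≤ 18 / 5 * π * (x - z₀.re) ^ 2 := by positivity
    have h10 : 22 / 5 * π * (11 / 20 * w) ^ 2 < 2 * π * (w / 2) := by
      have : 22 / 5 * (11 / 20 * w) ^ 2 < 2 * (w / 2) := by nlinarith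
      nlinarith
    constructor <;> linarith

end Pool.Agent.Y967.CB.MW
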