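import Pool.Agent.W366.HT.Int
import Pool.Agent.Y472.B.Defs

/-!
# Analytic interpolation of `log Tg` in `d`
-/

set_option autoImplicit false

namespace Pool.Agent.Y967.CB.TI

open Filter Finset Topology Metric MeasureTheory
open Pool.Agent.W366.HT
open Pool.Agent.Y472 (Tg)
open scoped Real

lemma sumA' {ψ : ℂ} (hψ : ψ ∈ ball (0 : ℂ) (1 / 100)) {N m : ℕ} (hN : 0 < N)
    (hm : (m : ℝ) / N ≤ 27 / 100) :
    ‖(∑ j ∈ range m, fA ψ (((2 * j + 1) / (2 * N) : ℝ) : ℂ)) / N -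
      ((m : ℂ) / N) * ∫ t in (0:ℝ)..1, fA ψ ((m : ℂ) / N * t)‖ ≤ 9 / N := by
  have hN' : (0 : ℝ) < N := by exact_mod_cast hN
  have hD : ∀ x ∈ Set.Icc (0:ℝ) (27 / 100), (x : ℂ) ∈ ball (1 / 8 : ℂ) (3 / 20) := by
    intro x hx
    exact real_mem_D1 hx.1 hx.2
  have hc : ContinuousOn (fun s : ℝ => fA ψ (s : ℂ)) (Set.Icc 0 (27 / 100)) :=
    (fA_diff hψ).continuousOn.comp (by fun_prop) hD
  have h1 := riem (h := fun s : ℝ => fA ψ (s : ℂ)) (L := 32) (W := 27 / 100) (by norm_num) hc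
    (fun x hx y hy => by
      have := fA_lip hψ (hD y hy) (hD x hx)
      rwa [← Complex.ofReal_sub, Complex.norm_real, Real.norm_eq_abs] at this) hN m hm
  have e1 : ((m : ℂ) / N) * ∫ t in (0:ℝ)..1, fA ψ ((m : ℂ) / N * t) =
      ∫ s in (0:ℝ)..((m : ℝ) / N), fA ψ (s : ℂ) := by
    have h2 := intervalIntegral.smul_integral_comp_mul_left (a := 0) (b := 1)
      (f := fun s : ℝ => fA ψ (s : ℂ)) ((m : ℝ) / N)
    rw [mul_zero, mul_one, Complex.real_smul] at h2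
    rw [← h2]
    push_cast
    rfl
  rw [e1]
  refine h1.trans ?_
  rw [div_le_div_iff_of_pos_right hN']
  linarith

lemma rrF_self {ψ w : ℂ} (hψ : ψ ∈ ball (0 : ℂ) (1 / 100)) (hw : w ∈ ball (1 / 8 : ℂ) (3 / 20)) :
    W711.HT.rrF w ψ = w * (∫ t in (0:ℝ)..1, fA ψ (w * t)) := by
  have h := rrF_split hψ hw hw
  rw [sub_self, zero_mul, add_zero] at h
  exact h

lemma rrF_split' {ψ δ w : ℂ} (hψ : ψ ∈ ball (0 : ℂ) (1 / 100)) (hδ : δ ∈ ball (1 / 8 : ℂ) (3 / 20))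
    (hw : w ∈ ball (1 / 8 : ℂ) (3 / 20)) :
    W711.HT.rrF δ ψ = W711.HT.rrF w ψ + (δ - w) * ∫ t in (0:ℝ)..1, fA ψ (w + (δ - w) * t) := by
  rw [rrF_self hψ hw, rrF_split hψ hδ hw]

lemma rrF_close {ψ δ w : ℂ} (hψ : ψ ∈ ball (0 : ℂ) (1 / 100)) (hδ : δ ∈ ball (1 / 8 : ℂ) (3 / 20))
    (hw : w ∈ ball (1 / 8 : ℂ) (3 / 20)) :
    ‖W711.HT.rrF δ ψ - W711.HT.rrF w ψ‖ ≤ 12 * ‖δ - w‖ := by
  rw [rrF_split' hψ hδ hw, add_sub_cancel_left, norm_mul, mul_comm]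
  refine mul_le_mul_of_nonneg_right ?_ (norm_nonneg _)
  have h := intervalIntegral.norm_integral_le_of_norm_le_const (a := (0:ℝ)) (b := 1) (C := 12)
    (f := fun t : ℝ => fA ψ (w + (δ - w) * t)) (by
      intro t ht
      rw [Set.uIoc_of_le zero_le_one] at ht
      refine fA_norm hψ ?_
      have := (convex_ball (1 / 8 : ℂ) (3 / 20)) hw hδ (sub_nonneg.2 ht.2) ht.1.le (by ring)
      have e : w + (δ - w) * t = (1 - t) • w + t • δ := by
        rw [Complex.real_smul, Complex.real_smul]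
        push_cast
        ring
      rw [e]
      exact this)
  simpa using h

/-- the factors of `Tg` -/
lemma exp_fA' {χ : ℂ} (hχ : χ ∈ ball (0 : ℂ) (1 / 100)) {x : ℝ} (h0 : 23 / 100 ≤ x)
    (h1 : x ≤ 1 / 2) :
    Complex.exp (fA χ ((1 / 2 - x : ℝ) : ℂ)) =
      2 * Complex.cos χ - 2 * (Real.cos (2 * π * x) : ℂ) := by
  have hz := real_mem_D1 (x := 1 / 2 - x) (by linarith) (by linarith)
  unfold fA
  rw [Complex.exp_log (ar_ne hχ hz)]
  unfold ar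
  have e : (2 * π * ((1 / 2 - x : ℝ) : ℂ) : ℂ) = ((π - 2 * π * x : ℝ) : ℂ) := by
    push_cast
    ring
  rw [e, ← Complex.ofReal_cos, Real.cos_pi_sub]
  push_cast
  ring

/-- the logarithm of `Tg` -/
noncomputable def G (N m : ℕ) (χ : ℂ) : ℂ :=
  (if N % 2 = 0 then Complex.log (2 * Complex.cos (χ / 2)) else 0) +
    ∑ t ∈ Ioc m ((N - 1) / 2), fA χ ((1 / 2 - (t : ℝ) / N : ℝ) : ℂ)

lemma cosh_re {χ : ℂ} (hχ : χ ∈ ball (0 : ℂ) (1 / 100)) : 1 ≤ (2 * Complex.cos (χ / 2)).re := by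
  rw [mem_ball_zero_iff] at hχ
  have e : (2 * Complex.cos (χ / 2)).re = 2 * (Real.cos (χ / 2).re * Real.cosh (χ / 2).im) := by
    rw [← cos_re']
    simp
  rw [e]
  have e2 : (χ / 2).re = χ.re / 2 := by simp
  have h1 := Complex.abs_re_le_norm χ
  have h2 : |(χ / 2).re| ≤ 1 / 100 := by
    rw [e2, abs_div, abs_of_pos (by norm_num : (0:ℝ) < 2)]
    linarith [norm_nonneg χ]
  have h3 := Real.one_sub_sq_div_two_le_cos (x := (χ / 2).re)
  have h4 : (χ / 2).re ^ 2 ≤ 1 / 100 := by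
    rw [← sq_abs]
    nlinarith [abs_nonneg (χ / 2).re]
  have h5 := Real.one_le_cosh (χ / 2).im
  have h6 : 1 / 2 ≤ Real.cos (χ / 2).re := by linarith
  nlinarith

lemma cosh_norm {χ : ℂ} (hχ : χ ∈ ball (0 : ℂ) (1 / 100)) : ‖2 * Complex.cos (χ / 2)‖ ≤ 4 := by
  rw [mem_ball_zero_iff] at hχ
  have h1 := norm_cos_le (χ / 2)
  have h2 : Real.cosh (χ / 2).im ≤ 2 := by
    refine cosh_le_two ?_
    have := Complex.abs_im_le_norm (χ / 2)
    have e : ‖χ / 2‖ = ‖χ‖ / 2 := by simp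
    rw [e] at this
    linarith [norm_nonneg χ]
  rw [norm_mul]
  have e : ‖(2:ℂ)‖ = 2 := by norm_num
  rw [e]
  linarith

lemma cosh_slit {χ : ℂ} (hχ : χ ∈ ball (0 : ℂ) (1 / 100)) :
    2 * Complex.cos (χ / 2) ∈ Complex.slitPlane := by
  rw [Complex.mem_slitPlane_iff]
  left
  linarith [cosh_re hχ]

lemma half_le (N : ℕ) (hN : 0 < N) : 1 / (2 * N : ℝ) ≤ 1 / 2 - (((N - 1) / 2 : ℕ) : ℝ) / N ∧
    1 / 2 - (((N - 1) / 2 : ℕ) : ℝ) / N ≤ 1 / N := by
  have hN' : (0 : ℝ) < N := by exact_mod_cast hN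
  obtain ⟨n, hn⟩ : ∃ n, n = (N - 1) / 2 := ⟨_, rfl⟩
  have h1 : 2 * n + 1 ≤ N := by omega
  have h2 : N ≤ 2 * n + 2 := by omega
  rw [← hn]
  have h1' : 2 * (n : ℝ) + 1 ≤ N := by exact_mod_cast h1
  have h2' : (N : ℝ) ≤ 2 * n + 2 := by exact_mod_cast h2
  have e : 1 / 2 - (n : ℝ) / N = (N - 2 * n) / (2 * N) := by field_simp
  rw [e]
  constructor
  · rw [div_le_div_iff_of_pos_right (by positivity)]
    linarith
  · rw [div_le_div_iff₀ (by positivity) hN']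
    nlinarith

lemma Tg_eq {N d : ℕ} (hN : 0 < N) {χ : ℂ} (hχ : χ ∈ ball (0 : ℂ) (1 / 100))
    (hd : 23 / 100 ≤ (d : ℝ) / N) : Tg N d χ = Complex.exp (G N d χ) := by
  have hN' : (0 : ℝ) < N := by exact_mod_cast hN
  unfold Tg G
  rw [Complex.exp_add, Complex.exp_sum]
  congr 1
  · by_cases h : N % 2 = 0
    · rw [if_pos h, if_pos h, Complex.exp_log (Complex.slitPlane_ne_zero (cosh_slit hχ))]
    · rw [if_neg h, if_neg h, Complex.exp_zero]
  · refine prod_congr rfl fun t ht => ?_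
    rw [mem_Ioc] at ht
    have h1 : (d : ℝ) / N ≤ (t : ℝ) / N :=
      div_le_div_of_nonneg_right (by exact_mod_cast ht.1.le) hN'.le
    have h2 : (t : ℝ) / N ≤ 1 / 2 := by
      have h3 : (t : ℝ) / N ≤ (((N - 1) / 2 : ℕ) : ℝ) / N :=
        div_le_div_of_nonneg_right (by exact_mod_cast ht.2) hN'.le
      have h4 := (half_le N hN).1
      have h5 : 0 ≤ 1 / (2 * N : ℝ) := by positivity
      linarith
    rw [exp_fA' hχ (hd.trans h1) h2]
    congr 5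
    ring

/-- the limit of the initial sum -/
lemma G_lim {N m : ℕ} (hN : 100 ≤ N) {χ : ℂ} (hχ : χ ∈ ball (0 : ℂ) (1 / 100))
    (h1 : 23 / 100 ≤ (m : ℝ) / N) (h2 : (m : ℝ) / N ≤ 1 / 4) :
    ‖G N m χ / N - W711.HT.rrF (1 / 2 - (m : ℂ) / N) χ‖ ≤ 34 / N := by
  have hN0 : 0 < N := by omega
  have hN' : (0 : ℝ) < N := by exact_mod_cast hN0
  obtain ⟨n, hn⟩ : ∃ n, n = (N - 1) / 2 := ⟨_, rfl⟩
  have hh := half_le N hN0
  rw [← hn] at hh
  have hinv : (1 / N : ℝ) ≤ 1 / 100 := by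
    rw [div_le_div_iff₀ hN' (by norm_num)]
    have : (100 : ℝ) ≤ N := by exact_mod_cast hN
    linarith
  have hinv0 : 0 ≤ 1 / (2 * N : ℝ) := by positivity
  have hmn : m ≤ n := by
    have h3 : (m : ℝ) / N ≤ (n : ℝ) / N := by linarith
    rw [div_le_div_iff_of_pos_right hN'] at h3
    exact_mod_cast h3
  obtain ⟨k, hk⟩ : ∃ k, n = m + k := ⟨n - m, by omega⟩
  have hkN : (k : ℝ) / N ≤ 27 / 100 := by
    have e : (n : ℝ) / N = (m : ℝ) / N + (k : ℝ) / N := by rw [hk]; push_cast; ring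
    linarith
  have hkN0 : 0 ≤ (k : ℝ) / N := by positivity
  -- reflect
  have e1 : ∑ t ∈ Ioc m n, fA χ ((1 / 2 - (t : ℝ) / N : ℝ) : ℂ) =
      ∑ j ∈ range k, fA χ ((1 / 2 - (n : ℝ) / N + (j : ℝ) / N : ℝ) : ℂ) := by
    refine Finset.sum_nbij' (fun t => n - t) (fun j => n - j) ?_ ?_ ?_ ?_ ?_
    · intro t ht
      rw [mem_Ioc] at ht
      rw [mem_range]
      omega
    · intro j hj
      rw [mem_range] at hj
      rw [mem_Ioc]
      omega
    · intro t ht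
      rw [mem_Ioc] at ht
      omega
    · intro j hj
      rw [mem_range] at hj
      omega
    · intro t ht
      rw [mem_Ioc] at ht
      congr 2
      rw [Nat.cast_sub ht.2]
      ring
  -- compare the nodes
  have e2 : ‖∑ j ∈ range k, fA χ ((1 / 2 - (n : ℝ) / N + (j : ℝ) / N : ℝ) : ℂ) -
      ∑ j ∈ range k, fA χ (((2 * j + 1) / (2 * N) : ℝ) : ℂ)‖ ≤ 5 := by
    rw [← Finset.sum_sub_distrib]
    have h3 : ∀ j ∈ range k, ‖fA χ ((1 / 2 - (n : ℝ) / N + (j : ℝ) / N : ℝ) : ℂ) -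
        fA χ (((2 * j + 1) / (2 * N) : ℝ) : ℂ)‖ ≤ 16 * (1 / N) := by
      intro j hj
      rw [mem_range] at hj
      have hj' : (j : ℝ) + 1 ≤ k := by exact_mod_cast hj
      have hjN : (j : ℝ) / N + 1 / N ≤ (k : ℝ) / N := by
        rw [← add_div]
        exact div_le_div_of_nonneg_right hj' hN'.le
      have hj0 : 0 ≤ (j : ℝ) / N := by positivity
      have e3 : ((2 * j + 1) / (2 * N) : ℝ) = (j : ℝ) / N + 1 / (2 * N) := by
        field_simp
      have e4 : 1 / (2 * N : ℝ) ≤ 1 / N := by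
        rw [div_le_div_iff₀ (by positivity) hN']
        linarith
      refine (fA_lip hχ (real_mem_D1 ?_ ?_) (real_mem_D1 ?_ ?_)).trans ?_
      · rw [e3]; positivity
      · rw [e3]; linarith
      · linarith
      · linarith
      · rw [← Complex.ofReal_sub, Complex.norm_real, Real.norm_eq_abs, e3, abs_of_nonneg (by linarith)]
        have e5 : 1 / (N : ℝ) = 2 * (1 / (2 * N)) := by field_simp
        linarith
    refine (norm_sum_le_of_le _ h3).trans ?_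
    rw [Finset.sum_const, card_range, nsmul_eq_mul]
    have : (k : ℝ) * (16 * (1 / N)) = 16 * ((k : ℝ) / N) := by ring
    rw [this]
    linarith
  have e3 := sumA' hχ hN0 hkN
  have hkc : ((k : ℂ) / N) = (((k : ℝ) / N : ℝ) : ℂ) := by push_cast; rfl
  have hmc : (1 / 2 - (m : ℂ) / N) = ((1 / 2 - (m : ℝ) / N : ℝ) : ℂ) := by push_cast; rfl
  have hkm : ((k : ℂ) / N) ∈ ball (1 / 8 : ℂ) (3 / 20) := by
    rw [hkc]
    exact real_mem_D1 hkN0 hkN
  have hmm : (1 / 2 - (m : ℂ) / N) ∈ ball (1 / 8 : ℂ) (3 / 20) := by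
    rw [hmc]
    exact real_mem_D1 (by linarith) (by linarith)
  rw [← rrF_self hχ hkm] at e3
  have e4 := rrF_close hχ hmm hkm
  have e5 : ‖(1 / 2 - (m : ℂ) / N) - (k : ℂ) / N‖ ≤ 1 / N := by
    rw [hkc, hmc, ← Complex.ofReal_sub, Complex.norm_real, Real.norm_eq_abs]
    have e : (n : ℝ) / N = (m : ℝ) / N + (k : ℝ) / N := by rw [hk]; push_cast; ring
    rw [abs_of_nonneg (by linarith)]
    linarith
  have e6 : ‖(if N % 2 = 0 then Complex.log (2 * Complex.cos (χ / 2)) else 0 : ℂ)‖ ≤ 8 := by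
    split_ifs
    · have := norm_log_le' (cosh_re hχ) (cosh_norm hχ)
      linarith
    · rw [norm_zero]
      norm_num
  have hNn : ‖(N : ℂ)‖ = N := by
    rw [Complex.norm_natCast]
  unfold G
  rw [← hn, e1]
  set A : ℂ := (if N % 2 = 0 then Complex.log (2 * Complex.cos (χ / 2)) else 0 : ℂ) with hA
  set B := ∑ j ∈ range k, fA χ ((1 / 2 - (n : ℝ) / N + (j : ℝ) / N : ℝ) : ℂ) with hB
  set B' := ∑ j ∈ range k, fA χ (((2 * j + 1) / (2 * N) : ℝ) : ℂ) with hB'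
  have e7 : (A + B) / N - W711.HT.rrF (1 / 2 - (m : ℂ) / N) χ = A / N + (B - B') / N +
      (B' / N - W711.HT.rrF ((k : ℂ) / N) χ) -
      (W711.HT.rrF (1 / 2 - (m : ℂ) / N) χ - W711.HT.rrF ((k : ℂ) / N) χ) := by ring
  rw [e7]
  have f1 : ‖A / N‖ ≤ 8 / N := by
    rw [norm_div, hNn]
    gcongr
  have f2 : ‖(B - B') / N‖ ≤ 5 / N := by
    rw [norm_div, hNn]
    gcongr
  have f3 : ‖W711.HT.rrF (1 / 2 - (m : ℂ) / N) χ - W711.HT.rrF ((k : ℂ) / N) χ‖ ≤ 12 / N := by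
    refine e4.trans ?_
    have : (12 : ℝ) / N = 12 * (1 / N) := by ring
    rw [this]
    gcongr
  have f4 := norm_sub_le (A / N + (B - B') / N + (B' / N - W711.HT.rrF ((k : ℂ) / N) χ))
    (W711.HT.rrF (1 / 2 - (m : ℂ) / N) χ - W711.HT.rrF ((k : ℂ) / N) χ)
  have f5 := norm_add_le (A / N + (B - B') / N) (B' / N - W711.HT.rrF ((k : ℂ) / N) χ)
  have f6 := norm_add_le (A / N) ((B - B') / N)
  have f7 : (34 : ℝ) / N = 8 / N + 5 / N + 9 / N + 12 / N := by ring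
  rw [f7]
  linarith

end Pool.Agent.Y967.CB.TI
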